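import Pool.Agent.Lib.MP_266831_co.Top

/-!
# Redrawing a drawing with polygonal arcs, keeping prescribed pairs of edges disjoint

Given a family of simple arcs between points (a `TopDrawing`, without any condition on the number of common
points), the arcs can be replaced by simple polygonal arcs such that all pairs of edges whose arcs have no
common interior point keep this property.
-/

namespace Pool.Agent.Lib.MP_3c943f_co

open Metric Set Filter Topology
open Pool.Agent.Lib.MP_266831_co (TopDrawing Drawing IsPolyArc Seg exists_polyArc)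

section redraw

variable {V : Type} {G : SimpleGraph V} (D : TopDrawing G)

/-- no common interior points -/
def TFree (e f : Sym2 V) : Prop := Disjoint (D.arc e '' Ioo 0 1) (D.arc f '' Ioo 0 1)

/-- sets of radial segments -/
def rad (S I C : Set (ℝ × ℝ)) (ρ : ℝ) : Set (ℝ × ℝ) :=
  {z | ∃ x ∈ S, x ∈ I ∧ ∃ c ∈ C, dist c x = ρ ∧ z ∈ segment ℝ x c}

/-- the part of an edge which is not close to a vertex -/
def vcore (ρ : ℝ) (e : Sym2 V) : Set (ℝ × ℝ) :=
  {w | w ∈ D.img e ∧ ∀ x ∈ range D.pt, ρ ≤ dist w x}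

/-- the region in which an edge is redrawn -/
def vregion (ρ δ : ℝ) (e : Sym2 V) : Set (ℝ × ℝ) :=
  thickening δ (vcore D ρ e) ∪ rad (range D.pt) (D.img e) (vcore D ρ e) ρ

theorem free_common {e f : Sym2 V} (he : e ∈ G.edgeSet) (hf : f ∈ G.edgeSet)
    (hef : TFree D e f) {w : ℝ × ℝ} (hw : w ∈ D.img e) (hw' : w ∈ D.img f) : w ∈ range D.pt := by
  rcases D.img_cases he hw with ⟨v, _, rfl⟩ | h1
  · exact ⟨v, rfl⟩
  · rcases D.img_cases hf hw' with ⟨v, _, rfl⟩ | h2
    · exact ⟨v, rfl⟩
    · exact absurd h2 (Set.disjoint_left.1 hef h1)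

theorem isCompact_vcore {e : Sym2 V} (he : e ∈ G.edgeSet) (ρ : ℝ) :
    IsCompact (vcore D ρ e) := by
  have : vcore D ρ e = D.img e ∩ ⋂ x ∈ range D.pt, {w | ρ ≤ dist w x} := by
    ext w; simp [vcore]
  rw [this]
  apply (D.isCompact_img he).inter_right
  apply isClosed_biInter
  intro x _
  exact isClosed_le continuous_const (continuous_id.dist continuous_const)

theorem vcore_disjoint {e f : Sym2 V} (he : e ∈ G.edgeSet) (hf : f ∈ G.edgeSet)
    (hef : TFree D e f) {ρ : ℝ} (hρ : 0 < ρ) : Disjoint (vcore D ρ e) (vcore D ρ f) := by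
  rw [Set.disjoint_left]
  intro w h1 h2
  have h3 := free_common D he hf hef h1.1 h2.1
  have := h1.2 w h3
  rw [dist_self] at this
  linarith

variable [Finite V]

theorem exists_vrho : ∃ ρ : ℝ, 0 < ρ ∧
    (∀ x ∈ range D.pt, ∀ y ∈ range D.pt, x ≠ y → 2 * ρ < dist x y) ∧
    (∀ x ∈ range D.pt, ∀ e ∈ G.edgeSet, x ∉ D.img e → ∀ w ∈ D.img e, ρ < dist w x) := by
  have hS : (range D.pt).Finite := Set.finite_range _
  have hE : G.edgeSet.Finite := Set.toFinite _
  have h1 : ∀ᶠ ρ in 𝓝[>] (0 : ℝ), ∀ x ∈ range D.pt, ∀ y ∈ range D.pt, x ≠ y → 2 * ρ < dist x y := by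
    rw [hS.eventually_all]
    intro x _
    rw [hS.eventually_all]
    intro y _
    by_cases hxy : x = y
    · exact Eventually.of_forall fun _ h => absurd hxy h
    · have hd : 0 < dist x y := dist_pos.2 hxy
      filter_upwards [Ioo_mem_nhdsGT (show (0 : ℝ) < dist x y / 2 by linarith)] with ρ hρ _
      linarith [hρ.2]
  have h2 : ∀ᶠ ρ in 𝓝[>] (0 : ℝ), ∀ x ∈ range D.pt, ∀ e ∈ G.edgeSet, x ∉ D.img e →
      ∀ w ∈ D.img e, ρ < dist w x := by
    rw [hS.eventually_all]
    intro x _
    rw [hE.eventually_all]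
    intro e he
    by_cases hx : x ∈ D.img e
    · exact Eventually.of_forall fun _ h => absurd hx h
    · have hcl : IsClosed (D.img e) := (D.isCompact_img he).isClosed
      have hmem : (D.img e)ᶜ ∈ 𝓝 x := hcl.isOpen_compl.mem_nhds hx
      obtain ⟨r, hr, hball⟩ := Metric.mem_nhds_iff.1 hmem
      filter_upwards [Ioo_mem_nhdsGT hr] with ρ hρ _ w hw
      by_contra hcon
      push Not at hcon
      exact hball (show w ∈ ball x r from lt_of_le_of_lt hcon hρ.2) hw
  obtain ⟨ρ, hρ, h3, h4⟩ := ((h1.and h2).and self_mem_nhdsWithin).exists.imp (fun ρ h =>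
    (⟨h.2, h.1.1, h.1.2⟩ : ρ ∈ Set.Ioi (0 : ℝ) ∧ _ ∧ _))
  exact ⟨ρ, hρ, h3, h4⟩

theorem exists_vdelta {ρ : ℝ} (hρ : 0 < ρ) : ∃ δ : ℝ, 0 < δ ∧ δ < ρ ∧
    ∀ e ∈ G.edgeSet, ∀ f ∈ G.edgeSet, TFree D e f →
      Disjoint (thickening δ (vcore D ρ e)) (thickening δ (vcore D ρ f)) := by
  have hE : G.edgeSet.Finite := Set.toFinite _
  have h1 : ∀ᶠ δ in 𝓝[>] (0 : ℝ), ∀ e ∈ G.edgeSet, ∀ f ∈ G.edgeSet, TFree D e f →
      Disjoint (thickening δ (vcore D ρ e)) (thickening δ (vcore D ρ f)) := by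
    rw [hE.eventually_all]
    intro e he
    rw [hE.eventually_all]
    intro f hf
    by_cases hef : TFree D e f
    · obtain ⟨δ, hδ, hd⟩ := (vcore_disjoint D he hf hef hρ).exists_thickenings
        (isCompact_vcore D he ρ) (isCompact_vcore D hf ρ).isClosed
      filter_upwards [Ioo_mem_nhdsGT hδ] with δ' hδ' _
      exact hd.mono (thickening_mono hδ'.2.le _) (thickening_mono hδ'.2.le _)
    · exact Eventually.of_forall fun _ h => absurd h hef
  obtain ⟨δ, h2, h3⟩ := (h1.and (Ioo_mem_nhdsGT hρ)).exists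
  exact ⟨δ, h3.1, h3.2, h2⟩

omit [Finite V] in
/-- regions of free pairs of edges meet only in vertices of both -/
theorem vregion_inter {ρ δ : ℝ} (hρ : 0 < ρ) (hδρ : δ < ρ)
    (h1 : ∀ x ∈ range D.pt, ∀ y ∈ range D.pt, x ≠ y → 2 * ρ < dist x y)
    {e f : Sym2 V} (hd : Disjoint (thickening δ (vcore D ρ e)) (thickening δ (vcore D ρ f)))
    (hδ : 0 < δ) {z : ℝ × ℝ} (hz : z ∈ vregion D ρ δ e) (hz' : z ∈ vregion D ρ δ f) :
    z ∈ D.img e ∧ z ∈ D.img f := by
  -- mixed case
  have mixed : ∀ e f : Sym2 V, Disjoint (thickening δ (vcore D ρ e)) (thickening δ (vcore D ρ f)) →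
      z ∈ thickening δ (vcore D ρ f) → z ∈ rad (range D.pt) (D.img e) (vcore D ρ e) ρ → False := by
    intro e f hd hz hz'
    obtain ⟨x, hx, hxe, c, hc, hcx, hseg⟩ := hz'
    rw [mem_thickening_iff] at hz
    obtain ⟨c', hc', hzc'⟩ := hz
    have h3 := Pool.Agent.Lib.MP_266831_co.dist_radial hseg
    have h4 := hc'.2 x hx
    have h5 : dist c' x ≤ dist c' z + dist z x := dist_triangle _ _ _
    rw [dist_comm c' z] at h5
    have h6 : z ∈ thickening δ (vcore D ρ e) := by
      rw [mem_thickening_iff]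
      exact ⟨c, hc, by rw [dist_comm]; linarith⟩
    exact Set.disjoint_left.1 hd h6 (by rw [mem_thickening_iff]; exact ⟨c', hc', hzc'⟩)
  rcases hz with hz | hz <;> rcases hz' with hz' | hz'
  · exact absurd hz' (Set.disjoint_left.1 hd hz)
  · exact (mixed f e hd.symm hz hz').elim
  · exact (mixed e f hd hz' hz).elim
  · obtain ⟨x, hx, hxe, c, hc, hcx, hseg⟩ := hz
    obtain ⟨y, hy, hyf, c', hc', hcy, hseg'⟩ := hz'
    have h3 := Pool.Agent.Lib.MP_266831_co.dist_radial hseg
    have h4 := Pool.Agent.Lib.MP_266831_co.dist_radial hseg'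
    have hxy : x = y := by
      by_contra hne
      have h5 := h1 x hx y hy hne
      have h6 := dist_triangle_left x y z
      have h7 : 0 ≤ dist c z := dist_nonneg
      have h8 : 0 ≤ dist c' z := dist_nonneg
      linarith
    subst hxy
    by_cases hzx : z = x
    · rw [hzx]; exact ⟨hxe, hyf⟩
    · have hcc := Pool.Agent.Lib.MP_266831_co.radial_same hρ hcx hcy hseg hseg' hzx
      subst hcc
      exact absurd (self_subset_thickening hδ _ hc') (Set.disjoint_left.1 hd
        (self_subset_thickening hδ _ hc))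

omit [Finite V] in
/-- vertices in a region -/
theorem vregion_vertex {ρ δ : ℝ} (hδρ : δ < ρ)
    (h1 : ∀ x ∈ range D.pt, ∀ y ∈ range D.pt, x ≠ y → 2 * ρ < dist x y)
    {e : Sym2 V} {z : ℝ × ℝ} (hz : z ∈ vregion D ρ δ e) (hs : z ∈ range D.pt) (hρ : 0 < ρ) :
    z ∈ D.img e := by
  rcases hz with hz | hz
  · exfalso
    rw [mem_thickening_iff] at hz
    obtain ⟨c, hc, hzc⟩ := hz
    have := hc.2 z hs
    rw [dist_comm] at this
    linarith
  · obtain ⟨x, hx, hxe, c, hc, hcx, hseg⟩ := hz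
    by_cases hzx : z = x
    · rw [hzx]; exact hxe
    · exfalso
      have h3 := Pool.Agent.Lib.MP_266831_co.dist_radial hseg
      have h5 := h1 z hs x hx hzx
      have h7 : 0 ≤ dist c z := dist_nonneg
      linarith

/-- the region of an edge is polygonally connected -/
theorem vregion_conn {ρ δ : ℝ} (hρ : 0 < ρ) (hδ : 0 < δ)
    (h1 : ∀ x ∈ range D.pt, ∀ y ∈ range D.pt, x ≠ y → 2 * ρ < dist x y)
    (h2 : ∀ x ∈ range D.pt, ∀ e ∈ G.edgeSet, x ∉ D.img e → ∀ w ∈ D.img e, ρ < dist w x)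
    {e : Sym2 V} (he : e ∈ G.edgeSet) :
    Relation.ReflTransGen (Seg (vregion D ρ δ e)) (D.arc e 0) (D.arc e 1) := by
  classical
  set K := vregion D ρ δ e with hK
  set φ : ℝ → ℝ × ℝ := fun t =>
    if h : ∃ x ∈ range D.pt, dist (D.arc e t) x < ρ then h.choose else D.arc e t with hφ
  have hφ1 : ∀ t, ∀ x ∈ range D.pt, dist (D.arc e t) x < ρ → φ t = x := by
    intro t x hx hd
    have hex : ∃ x ∈ range D.pt, dist (D.arc e t) x < ρ := ⟨x, hx, hd⟩
    simp only [hφ, dif_pos hex]
    obtain ⟨h3, h4⟩ := hex.choose_spec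
    by_contra hne
    have h5 := h1 _ h3 x hx hne
    have h6 := dist_triangle_left hex.choose x (D.arc e t)
    linarith
  have hφ2 : ∀ t, (∀ x ∈ range D.pt, ρ ≤ dist (D.arc e t) x) → φ t = D.arc e t := by
    intro t ht
    simp only [hφ]
    rw [dif_neg]
    push Not
    exact ht
  have hsymm : Std.Symm (Seg K) := ⟨fun a b h => h.symm⟩
  have hconn : ∀ t ∈ Set.Icc (0 : ℝ) 1, ∀ t' ∈ Set.Icc (0 : ℝ) 1,
      Relation.ReflTransGen (Seg K) (φ t) (φ t') := by
    intro t ht t' ht'
    refine (isPreconnected_Icc).induction₂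
      (fun a b => Relation.ReflTransGen (Seg K) (φ a) (φ b)) ?_ ?_ ?_ ht ht'
    · intro a ha
      have hcont : Tendsto (D.arc e) (𝓝[Set.Icc 0 1] a) (𝓝 (D.arc e a)) := D.arc_cont e he a ha
      by_cases hx : ∃ x ∈ range D.pt, dist (D.arc e a) x < ρ
      · obtain ⟨x, hx, hd⟩ := hx
        have hopen : ∀ᶠ w in 𝓝 (D.arc e a), dist w x < ρ := by
          have : Tendsto (fun w => dist w x) (𝓝 (D.arc e a)) (𝓝 (dist (D.arc e a) x)) :=
            (continuous_id.dist continuous_const).tendsto _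
          exact this.eventually_lt_const hd
        filter_upwards [hcont.eventually hopen] with b hb
        rw [hφ1 a x hx hd, hφ1 b x hx hb]
      · push Not at hx
        have hS : (range D.pt).Finite := Set.finite_range _
        have hev1 : ∀ᶠ w in 𝓝 (D.arc e a), ∀ x ∈ range D.pt, ρ < dist (D.arc e a) x →
            ρ < dist w x := by
          rw [hS.eventually_all]
          intro x _
          by_cases hd : ρ < dist (D.arc e a) x
          · have : Tendsto (fun w => dist w x) (𝓝 (D.arc e a)) (𝓝 (dist (D.arc e a) x)) :=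
              (continuous_id.dist continuous_const).tendsto _
            filter_upwards [this.eventually_const_lt hd] with w hw _
            exact hw
          · exact Eventually.of_forall fun _ h => absurd h hd
        have hev2 : ∀ᶠ w in 𝓝 (D.arc e a), w ∈ ball (D.arc e a) δ := ball_mem_nhds _ hδ
        have hca : D.arc e a ∈ vcore D ρ e := ⟨D.arc_mem_img ha, hx⟩
        filter_upwards [hcont.eventually hev1, hcont.eventually hev2, self_mem_nhdsWithin]
          with b hb1 hb2 hb
        rw [hφ2 a hx]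
        by_cases hy : ∃ y ∈ range D.pt, dist (D.arc e b) y < ρ
        · obtain ⟨y, hy, hd⟩ := hy
          rw [hφ1 b y hy hd]
          apply Relation.ReflTransGen.single
          apply Seg.symm
          intro z hz
          right
          refine ⟨y, hy, ?_, D.arc e a, hca, ?_, hz⟩
          · by_contra hcon
            have := h2 y hy e he hcon _ (D.arc_mem_img hb)
            linarith
          · refine le_antisymm ?_ (hx y hy)
            by_contra hcon
            push Not at hcon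
            have := hb1 y hy hcon
            linarith
        · push Not at hy
          rw [hφ2 b hy]
          apply Relation.ReflTransGen.single
          intro z hz
          left
          have h3 : segment ℝ (D.arc e a) (D.arc e b) ⊆ ball (D.arc e a) δ :=
            (convex_ball _ _).segment_subset (mem_ball_self hδ) hb2
          exact ball_subset_thickening hca δ (h3 hz)
    · intro a b c _ _ _ hab hbc
      exact hab.trans hbc
    · intro a b _ _ hab
      exact symm hab
  have h0 : φ 0 = D.arc e 0 := by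
    apply hφ1 0 _ _ (by rw [dist_self]; exact hρ)
    obtain ⟨v, _, hv⟩ := D.end_zero he
    exact ⟨v, hv.symm⟩
  have h1' : φ 1 = D.arc e 1 := by
    apply hφ1 1 _ _ (by rw [dist_self]; exact hρ)
    obtain ⟨v, _, hv⟩ := D.end_one he
    exact ⟨v, hv.symm⟩
  have := hconn 0 (by simp) 1 (by simp)
  rwa [h0, h1'] at this

/-- Every family of arcs can be replaced by a polygonal one, keeping the free pairs free. -/
theorem exists_poly_drawing :
    ∃ D' : Drawing G, D'.pt = D.pt ∧ ∀ e ∈ G.edgeSet, ∀ f ∈ G.edgeSet, TFree D e f →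
      Disjoint (D'.arc e '' Ioo 0 1) (D'.arc f '' Ioo 0 1) := by
  classical
  obtain ⟨ρ, hρ, h1, h2⟩ := exists_vrho D
  obtain ⟨δ, hδ, hδρ, hdis⟩ := exists_vdelta D hρ
  have hex : ∀ e : Sym2 V, ∃ γ : ℝ → ℝ × ℝ, e ∈ G.edgeSet → (IsPolyArc γ ∧ γ 0 = D.arc e 0 ∧
      γ 1 = D.arc e 1 ∧ ∀ t ∈ Set.Icc (0 : ℝ) 1, γ t ∈ vregion D ρ δ e) := by
    intro e
    by_cases he : e ∈ G.edgeSet
    · have hne : D.arc e 0 ≠ D.arc e 1 := by
        intro h
        have := D.arc_inj e he (by simp) (by simp) h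
        norm_num at this
      obtain ⟨γ, hγ⟩ := exists_polyArc hne (vregion_conn D hρ hδ h1 h2 he)
      exact ⟨γ, fun _ => hγ⟩
    · exact ⟨fun _ => 0, fun h => absurd h he⟩
  choose γ hγ using hex
  -- vertices on the new arcs
  have hsp : ∀ e ∈ G.edgeSet, ∀ t ∈ Set.Ioo (0 : ℝ) 1, ∀ v, γ e t ≠ D.pt v := by
    intro e he t ht v heq
    obtain ⟨hpoly, hγ0, hγ1, hreg⟩ := hγ e he
    have ht' : t ∈ Set.Icc (0 : ℝ) 1 := ⟨ht.1.le, ht.2.le⟩
    have hmem : D.pt v ∈ D.img e := by
      apply vregion_vertex D hδρ h1 (heq ▸ hreg t ht') ⟨v, rfl⟩ hρ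
    rcases D.img_cases he hmem with ⟨w, hw, hvw⟩ | ⟨s, hs, hs'⟩
    · have hvw' := D.pt_injective hvw
      subst hvw'
      have hends := D.arc_ends e he
      have hmap : D.pt v ∈ e.map D.pt := Sym2.mem_map.2 ⟨v, hw, rfl⟩
      rw [← hends, Sym2.mem_iff] at hmap
      rcases hmap with h | h
      · rw [h, ← hγ0] at heq
        have := hpoly.1 ht' (by simp) heq
        exact absurd this ht.1.ne'
      · rw [h, ← hγ1] at heq
        have := hpoly.1 ht' (by simp) heq
        exact absurd this ht.2.ne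
    · exact D.arc_avoid e he s hs v hs'
  refine ⟨{ pt := D.pt, pt_injective := D.pt_injective, arc := γ,
            arc_poly := fun e he => (hγ e he).1,
            arc_ends := fun e he => by rw [(hγ e he).2.1, (hγ e he).2.2.1]; exact D.arc_ends e he,
            arc_avoid := hsp }, rfl, ?_⟩
  intro e he f hf hef
  rw [Set.disjoint_left]
  rintro z ⟨t, ht, hte⟩ ⟨t', ht', htf⟩
  have hze : z ∈ vregion D ρ δ e := hte ▸ (hγ e he).2.2.2 t ⟨ht.1.le, ht.2.le⟩
  have hzf : z ∈ vregion D ρ δ f := htf ▸ (hγ f hf).2.2.2 t' ⟨ht'.1.le, ht'.2.le⟩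
  obtain ⟨h3, h4⟩ := vregion_inter D hρ hδρ h1 (hdis e he f hf hef) hδ hze hzf
  obtain ⟨v, hv⟩ := free_common D he hf hef h3 h4
  exact hsp e he t ht v (hte.trans hv.symm)

end redraw

end Pool.Agent.Lib.MP_3c943f_co
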