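import Pool.Agent.Lib.MP_266831_co.Geom
import Pool.Agent.Lib.MP_3c943f_co.Redraw

/-!
# The axis model of a drawing in which some pairs of edges have no common interior point
-/

namespace Pool.Agent.Lib.MP_3c943f_co

open Set Polynomial
open Pool.Agent.Lib.MP_266831_co

/-- The combinatorial data of the edges relative to the `x`-axis (all vertices are on the axis); the edges of
a pair in the relation `F` do not meet. -/
structure SModel {V : Type} (G : SimpleGraph V) (F : Sym2 V → Sym2 V → Prop) where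
  x : V → ℝ
  x_injective : Function.Injective x
  A : V → V → AxisPath
  z_zero : ∀ a b, G.Adj a b → (A a b).z 0 = x a
  z_last : ∀ a b, G.Adj a b → (A a b).z ((A a b).n + 1) = x b
  z_inj : ∀ a b, G.Adj a b → ∀ i ≤ (A a b).n + 1, ∀ j ≤ (A a b).n + 1, (A a b).z i = (A a b).z j → i = j
  z_ne : ∀ a b, G.Adj a b → ∀ i, 1 ≤ i → i ≤ (A a b).n → ∀ v, (A a b).z i ≠ x v
  z_ne_z : ∀ a b c d, G.Adj a b → G.Adj c d → F s(a, b) s(c, d) →
    ∀ i, 1 ≤ i → i ≤ (A a b).n → ∀ j, 1 ≤ j → j ≤ (A c d).n → (A a b).z i ≠ (A c d).z j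
  X_zero : ∀ a b c d, G.Adj a b → G.Adj c d → F s(a, b) s(c, d) → (A a b).X (A c d) = 0

/-- a free pair of edges has no interleaving pieces -/
theorem X_eq_zero {V : Type} {G : SimpleGraph V} {D : Drawing G} {a b a' b' : V}
    (hab : G.Adj a b) (hab' : G.Adj a' b')
    (hF : Disjoint (D.arc s(a, b) '' Ioo 0 1) (D.arc s(a', b') '' Ioo 0 1))
    (O : OArc D a b) (O' : OArc D a' b') {c : ℝ} {f : ℝ[X]} {A A' : AxisPath} {s s' : ℕ → ℝ}
    (R : Rep c f O.γ A s) (R' : Rep c f O'.γ A' s') : A.X A' = 0 := by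
  classical
  unfold AxisPath.X
  rw [Finset.card_eq_zero, Finset.eq_empty_iff_forall_notMem]
  intro k hk
  obtain ⟨t, ht, u, hu, h⟩ := R.meet R' O.cont O'.cont hk
  unfold AxisPath.pairs at hk
  simp only [Finset.mem_filter, Finset.mem_product, Finset.mem_range] at hk
  obtain ⟨⟨hk1, hk2⟩, -, hint⟩ := hk
  have ht01 := R.sub_Icc (by omega) ht
  have hu01 := R'.sub_Icc (by omega) hu
  have hav : ∀ t ∈ Ioo (0 : ℝ) 1, ∀ v, O.γ t ≠ D.pt v := by
    intro t ht v hv
    have : O.γ t ∈ D.arc s(a, b) '' Ioo 0 1 := by rw [← O.image]; exact ⟨t, ht, rfl⟩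
    obtain ⟨r, hr, hr'⟩ := this
    exact D.arc_avoid _ hab r hr v (hr'.trans hv)
  have hav' : ∀ t ∈ Ioo (0 : ℝ) 1, ∀ v, O'.γ t ≠ D.pt v := by
    intro t ht v hv
    have : O'.γ t ∈ D.arc s(a', b') '' Ioo 0 1 := by rw [← O'.image]; exact ⟨t, ht, rfl⟩
    obtain ⟨r, hr, hr'⟩ := this
    exact D.arc_avoid _ hab' r hr v (hr'.trans hv)
  have hend : t ∉ Ioo (0 : ℝ) 1 → (∃ v, O.γ t = D.pt v) ∧ (t = s k.1 ∨ t = s (k.1 + 1)) := by
    intro hnot
    rcases eq_or_lt_of_le ht01.1 with h0 | h0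
    · have h1 := (R.mem (i := k.1) (by omega)).1
      exact ⟨⟨a, by rw [← h0]; exact O.zero⟩, Or.inl (le_antisymm (by rw [← h0]; exact h1) ht.1)⟩
    · rcases eq_or_lt_of_le ht01.2 with h1 | h1
      · have h2 := (R.mem (i := k.1 + 1) (by omega)).2
        exact ⟨⟨b, by rw [h1]; exact O.one⟩, Or.inr (le_antisymm ht.2 (by rw [h1]; exact h2))⟩
      · exact absurd ⟨h0, h1⟩ hnot
  have hend' : u ∉ Ioo (0 : ℝ) 1 → (∃ v, O'.γ u = D.pt v) ∧ (u = s' k.2 ∨ u = s' (k.2 + 1)) := by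
    intro hnot
    rcases eq_or_lt_of_le hu01.1 with h0 | h0
    · have h1 := (R'.mem (i := k.2) (by omega)).1
      exact ⟨⟨a', by rw [← h0]; exact O'.zero⟩, Or.inl (le_antisymm (by rw [← h0]; exact h1) hu.1)⟩
    · rcases eq_or_lt_of_le hu01.2 with h1 | h1
      · have h2 := (R'.mem (i := k.2 + 1) (by omega)).2
        exact ⟨⟨b', by rw [h1]; exact O'.one⟩, Or.inr (le_antisymm hu.2 (by rw [h1]; exact h2))⟩
      · exact absurd ⟨h0, h1⟩ hnot
  by_cases htI : t ∈ Ioo (0 : ℝ) 1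
  · by_cases huI : u ∈ Ioo (0 : ℝ) 1
    · have h1 : O.γ t ∈ D.arc s(a, b) '' Ioo 0 1 := by rw [← O.image]; exact ⟨t, htI, rfl⟩
      have h2 : O.γ t ∈ D.arc s(a', b') '' Ioo 0 1 := by
        rw [← O'.image, h]; exact ⟨u, huI, rfl⟩
      exact Set.disjoint_left.1 hF h1 h2
    · obtain ⟨⟨v, hv⟩, -⟩ := hend' huI
      exact absurd (h.trans hv) (hav t htI v)
  · obtain ⟨⟨v, hv⟩, h1⟩ := hend htI
    by_cases huI : u ∈ Ioo (0 : ℝ) 1
    · exact absurd (h.symm.trans hv) (hav' u huI v)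
    · obtain ⟨-, h2⟩ := hend' huI
      exfalso
      have e1 : XX c (O.γ t) = A.z k.1 ∨ XX c (O.γ t) = A.z (k.1 + 1) := by
        rcases h1 with h1 | h1
        · left; rw [R.zz, h1]
        · right; rw [R.zz, h1]
      have e2 : XX c (O.γ t) = A'.z k.2 ∨ XX c (O.γ t) = A'.z (k.2 + 1) := by
        rw [h]
        rcases h2 with h2 | h2
        · left; rw [R'.zz, h2]
        · right; rw [R'.zz, h2]
      unfold Pool.Agent.Lib.MP_266831_co.Inter at hint
      grind

/-- **From polygonal drawings to the axis model.** -/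
theorem exists_sModel {V : Type} [Fintype V] {G : SimpleGraph V} (D : Drawing G) :
    Nonempty (SModel G (fun e f => Disjoint (D.arc e '' Ioo 0 1) (D.arc f '' Ioo 0 1))) := by
  classical
  obtain ⟨c, hc⟩ := exists_shear D.pt D.pt_injective
  obtain ⟨f, hf, hfv, -⟩ := exists_poly D.pt c hc ∅ Set.finite_empty (by simp)
  have hex : ∀ a b, ∃ A : AxisPath, G.Adj a b → ∃ (O : OArc D a b) (s : ℕ → ℝ), Rep c f O.γ A s := by
    intro a b
    by_cases hab : G.Adj a b
    · obtain ⟨O⟩ := exists_oArc D hab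
      obtain ⟨A, s, hR⟩ := exists_rep O c f hf hfv
      exact ⟨A, fun _ => ⟨O, s, hR⟩⟩
    · exact ⟨⟨0, fun _ => 0, true⟩, fun h => absurd h hab⟩
  choose A hA using hex
  have hint : ∀ {a b} (hab : G.Adj a b) (O : OArc D a b) (s : ℕ → ℝ) (_ : Rep c f O.γ (A a b) s)
      (i : ℕ), 1 ≤ i → i ≤ (A a b).n → O.γ (s i) ∈ D.arc s(a, b) '' Ioo 0 1 := by
    intro a b hab O s R i h1 h2
    rw [← O.image]
    exact ⟨s i, R.mem_Ioo h1 h2, rfl⟩
  exact ⟨
    { x := fun v => XX c (D.pt v)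
      x_injective := hc
      A := A
      z_zero := by
        intro a b hab
        obtain ⟨O, s, R⟩ := hA a b hab
        rw [R.zz, R.zero, O.zero]
      z_last := by
        intro a b hab
        obtain ⟨O, s, R⟩ := hA a b hab
        rw [R.zz, R.last, O.one]
      z_inj := by
        intro a b hab i hi j hj h
        obtain ⟨O, s, R⟩ := hA a b hab
        exact R.z_inj O.inj hi hj h
      z_ne := by
        intro a b hab i h1 h2 v hv
        obtain ⟨O, s, R⟩ := hA a b hab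
        rw [R.zz] at hv
        have h3 : O.γ (s i) = D.pt v := eq_of_XX_hh hv (by rw [R.root i (by omega), hfv v])
        obtain ⟨r, hr, hr'⟩ := hint hab O s R i h1 h2
        exact D.arc_avoid _ hab r hr v (hr'.trans h3)
      z_ne_z := by
        intro a b a' b' hab hab' hF i h1 h2 j h3 h4 hz
        obtain ⟨O, s, R⟩ := hA a b hab
        obtain ⟨O', s', R'⟩ := hA a' b' hab'
        rw [R.zz, R'.zz] at hz
        have h5 : O.γ (s i) = O'.γ (s' j) :=
          eq_of_XX_hh hz (by rw [R.root i (by omega), R'.root j (by omega)])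
        have h6 := hint hab O s R i h1 h2
        have h7 := hint hab' O' s' R' j h3 h4
        rw [← h5] at h7
        exact Set.disjoint_left.1 hF h6 h7
      X_zero := by
        intro a b a' b' hab hab' hF
        obtain ⟨O, s, R⟩ := hA a b hab
        obtain ⟨O', s', R'⟩ := hA a' b' hab'
        exact X_eq_zero hab hab' hF O O' R R' }⟩

end Pool.Agent.Lib.MP_3c943f_co
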