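import Pool.Agent.Lib.MP_3c943f_co.Heights

/-!
# From height data to drawings
-/

namespace Pool.Agent.Lib.MP_3c943f_co

open Set

variable {n : ℕ}

/-- the height function of an edge of a graph on `Fin n`, from data on pairs `a < b` -/
def hgt (K : Fin n → Fin n → ℕ → ℤ) (e : Sym2 (Fin n)) : ℕ → ℤ := K e.inf e.sup

/-- conditions on the height data (all decidable) -/
structure Good (G : SimpleGraph (Fin n)) (K : Fin n → Fin n → ℕ → ℤ) : Prop where
  ends : ∀ a b : Fin n, a < b → G.Adj a b → K a b a = 0 ∧ K a b b = 0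
  inner : ∀ a b : Fin n, a < b → G.Adj a b → ∀ i : Fin n, a < i → i < b → K a b i ≠ 0
  pairs : ∀ a b c d : Fin n, a < b → c < d → G.Adj a b → G.Adj c d → ¬ (a = c ∧ b = d) →
    (∀ i : Fin n, max a c < i → i < min b d → K a b i ≠ K c d i) ∧
    ∀ i : Fin n, max a c ≤ i → i < min b d → (K a b i ≠ K c d i ∨ K a b (i + 1) ≠ K c d (i + 1))

theorem edge_cases {G : SimpleGraph (Fin n)} {e : Sym2 (Fin n)} (he : e ∈ G.edgeSet) :
    ∃ a b : Fin n, a < b ∧ G.Adj a b ∧ e = s(a, b) ∧ e.inf = a ∧ e.sup = b := by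
  induction e with
  | _ a b =>
    rcases lt_trichotomy a b with h | h | h
    · exact ⟨a, b, h, he, rfl, inf_eq_left.2 h.le, sup_eq_right.2 h.le⟩
    · subst h; exact absurd he (G.loopless.irrefl a)
    · exact ⟨b, a, h, he.symm, Sym2.eq_swap, inf_eq_right.2 h.le, sup_eq_left.2 h.le⟩

theorem Good.genPos {G : SimpleGraph (Fin n)} {K : Fin n → Fin n → ℕ → ℤ} (hK : Good G K)
    {a b c d : Fin n} (hab : a < b) (hcd : c < d) (h1 : G.Adj a b) (h2 : G.Adj c d)
    (hne : ¬ (a = c ∧ b = d)) :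
    GenPos (K a b) (K c d) (max (a : ℕ) c) (min (b : ℕ) d) := by
  obtain ⟨h3, h4⟩ := hK.pairs a b c d hab hcd h1 h2 hne
  constructor
  · intro i hi1 hi2
    have hin : i < n := by have := b.2; omega
    refine h3 ⟨i, hin⟩ ?_ ?_
    · rw [max_lt_iff]; rw [max_lt_iff] at hi1; exact hi1
    · rw [lt_min_iff]; rw [lt_min_iff] at hi2; exact hi2
  · intro i hi1 hi2
    have hin : i < n := by have := b.2; omega
    refine h4 ⟨i, hin⟩ ?_ ?_
    · rw [max_le_iff]; rw [max_le_iff] at hi1; exact hi1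
    · rw [lt_min_iff]; exact lt_min_iff.1 (Nat.lt_of_succ_le hi2)

/-- the drawing with given heights -/
noncomputable def ofHeights (G : SimpleGraph (Fin n)) (K : Fin n → Fin n → ℕ → ℤ) (hK : Good G K) :
    PlaneDrawing G where
  pt v := ((v : ℕ), 0)
  pt_injective := by
    intro v w h
    simp only [Prod.mk.injEq, Nat.cast_inj, and_true] at h
    exact Fin.ext h
  arc e := curve n (hgt K e) (e.inf : Fin n) (e.sup : Fin n)
  arc_cont := fun e _ => (curve_continuous _ _ _ _).continuousOn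
  arc_inj := by
    intro e he
    obtain ⟨a, b, hab, -, -, h1, h2⟩ := edge_cases he
    rw [h1, h2]
    exact (curve_injective _ _ hab).injOn
  arc_ends := by
    intro e he
    obtain ⟨a, b, hab, hadj, rfl, h1, h2⟩ := edge_cases he
    obtain ⟨h3, h4⟩ := hK.ends a b hab hadj
    unfold hgt
    rw [h1, h2, Sym2.map_mk]
    have e1 : curve n (K a b) a b 0 = (((a : ℕ) : ℝ), 0) := by
      unfold curve
      rw [zero_mul, add_zero, Y_int a.2, h3]
      simp
    have e2 : curve n (K a b) a b 1 = (((b : ℕ) : ℝ), 0) := by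
      unfold curve
      rw [one_mul, add_sub_cancel, Y_int b.2, h4]
      simp
    rw [e1, e2]
  arc_avoid := by
    intro e he t ht v hv
    obtain ⟨a, b, hab, hadj, rfl, h1, h2⟩ := edge_cases he
    unfold hgt at hv
    rw [h1, h2] at hv
    have hmem : (((v : ℕ) : ℝ), (0 : ℝ)) ∈ curve n (K a b) a b '' Ioo 0 1 := ⟨t, ht, hv⟩
    rw [curve_Ioo _ _ hab] at hmem
    obtain ⟨⟨h3, h4⟩, h5⟩ := hmem
    simp only [Nat.cast_lt] at h3 h4 h5
    rw [Y_int v.2] at h5
    have h6 : K a b v = 0 := by exact_mod_cast h5.symm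
    exact hK.inner a b hab hadj v h3 h4 h6
  finite_common := by
    intro e he f hf hef
    obtain ⟨a, b, hab, hadj, rfl, h1, h2⟩ := edge_cases he
    obtain ⟨c, d, hcd, hadj', rfl, h3, h4⟩ := edge_cases hf
    have hne : ¬ (a = c ∧ b = d) := by rintro ⟨rfl, rfl⟩; exact hef rfl
    have hg := hK.genPos hab hcd hadj hadj' hne
    unfold hgt
    rw [h1, h2, h3, h4]
    have hfin : (curve n (K a b) a b '' Ioo 0 1 ∩ curve n (K c d) c d '' Ioo 0 1).Finite := by
      rw [common_eq hab hcd b.2 hg]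
      exact (Finset.finite_toSet _).image _
    have hfin2 : ((fun x : ℝ => (x, Y n (K a b) x)) ''
        {((a : ℕ) : ℝ), ((b : ℕ) : ℝ), ((c : ℕ) : ℝ), ((d : ℕ) : ℝ)}).Finite :=
      (Set.toFinite _).image _
    refine (hfin.union hfin2).subset ?_
    rintro z ⟨hz, hz'⟩
    have hz0 := hz
    have hz0' := hz'
    rw [curve_Icc _ _ hab] at hz
    rw [curve_Icc _ _ hcd] at hz'
    obtain ⟨⟨m1, m2⟩, m3⟩ := hz
    obtain ⟨⟨m1', m2'⟩, m3'⟩ := hz'
    by_cases k1 : z.1 = ((a : ℕ) : ℝ)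
    · right; exact ⟨z.1, by rw [k1]; simp, Prod.ext rfl m3.symm⟩
    by_cases k2 : z.1 = ((b : ℕ) : ℝ)
    · right; exact ⟨z.1, by rw [k2]; simp, Prod.ext rfl m3.symm⟩
    by_cases k3 : z.1 = ((c : ℕ) : ℝ)
    · right; exact ⟨z.1, by rw [k3]; simp, Prod.ext rfl m3.symm⟩
    by_cases k4 : z.1 = ((d : ℕ) : ℝ)
    · right; exact ⟨z.1, by rw [k4]; simp, Prod.ext rfl m3.symm⟩
    left
    rw [curve_Ioo _ _ hab, curve_Ioo _ _ hcd]
    exact ⟨⟨⟨lt_of_le_of_ne m1 (Ne.symm k1), lt_of_le_of_ne m2 k2⟩, m3⟩,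
      ⟨lt_of_le_of_ne m1' (Ne.symm k3), lt_of_le_of_ne m2' k4⟩, m3'⟩
  proper := by
    intro e he f hf hef x hx
    obtain ⟨a, b, hab, hadj, rfl, h1, h2⟩ := edge_cases he
    obtain ⟨c, d, hcd, hadj', rfl, h3, h4⟩ := edge_cases hf
    have hne : ¬ (a = c ∧ b = d) := by rintro ⟨rfl, rfl⟩; exact hef rfl
    have hg := hK.genPos hab hcd hadj hadj' hne
    unfold hgt at hx ⊢
    rw [h1, h2, h3, h4] at hx ⊢
    exact proper_of_flip hab hcd b.2 hg hx

theorem ofHeights_crossings {G : SimpleGraph (Fin n)} {K : Fin n → Fin n → ℕ → ℤ} (hK : Good G K)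
    {a b c d : Fin n} (hab : a < b) (hcd : c < d) (h1 : G.Adj a b) (h2 : G.Adj c d)
    (hne : ¬ (a = c ∧ b = d)) :
    ((ofHeights G K hK).crossings s(a, b) s(c, d)).Finite ∧
    ((ofHeights G K hK).crossings s(a, b) s(c, d)).ncard =
      (flips (K a b) (K c d) (max (a : ℕ) c) (min (b : ℕ) d)).card := by
  have hg := hK.genPos hab hcd h1 h2 hne
  have e1 : (s(a, b) : Sym2 (Fin n)).inf = a := inf_eq_left.2 hab.le
  have e2 : (s(a, b) : Sym2 (Fin n)).sup = b := sup_eq_right.2 hab.le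
  have e3 : (s(c, d) : Sym2 (Fin n)).inf = c := inf_eq_left.2 hcd.le
  have e4 : (s(c, d) : Sym2 (Fin n)).sup = d := sup_eq_right.2 hcd.le
  have e5 : (ofHeights G K hK).crossings s(a, b) s(c, d) =
      curve n (K a b) a b '' Ioo 0 1 ∩ curve n (K c d) c d '' Ioo 0 1 := by
    show curve n (hgt K s(a, b)) _ _ '' Ioo 0 1 ∩ curve n (hgt K s(c, d)) _ _ '' Ioo 0 1 = _
    unfold hgt
    rw [e1, e2, e3, e4]
  rw [e5]
  refine ⟨?_, common_ncard hab hcd b.2 hg⟩
  rw [common_eq hab hcd b.2 hg]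
  exact (Finset.finite_toSet _).image _

end Pool.Agent.Lib.MP_3c943f_co
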