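import Mathlib

/-!
# Drawings, independent odd crossings and simultaneous embeddings (MP_3c943f_co)

The notions of the problem, for two graphs `G₁`, `G₂` on the same vertex set `V`.
-/

namespace Pool.Agent.Lib.MP_3c943f_co

/-- The subsets `A` and `B` of the plane *cross properly* in the point `x`: a homeomorphism `φ` from an
open neighbourhood of `x` onto an open subset of the plane sends `x` to the origin and, inside the
neighbourhood, `A` and `B` exactly to the two coordinate axes. -/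
def ProperCrossing (A B : Set (ℝ × ℝ)) (x : ℝ × ℝ) : Prop :=
  ∃ φ : OpenPartialHomeomorph (ℝ × ℝ) (ℝ × ℝ), x ∈ φ.source ∧ φ x = (0, 0) ∧
    ∀ z ∈ φ.source, (z ∈ A ↔ (φ z).1 = 0) ∧ (z ∈ B ↔ (φ z).2 = 0)

/-- A *drawing* of the graph `G` in the plane `ℝ × ℝ`: the vertices are distinct points, each edge `e` is
a simple (continuous, injective) arc `arc e` (with parameter in `[0,1]`) joining its two end vertices
and passing through no other vertex; any two arcs have finitely many common points, and each common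
interior point is a proper crossing. -/
structure PlaneDrawing {V : Type} (G : SimpleGraph V) where
  /-- the position of a vertex -/
  pt : V → ℝ × ℝ
  pt_injective : Function.Injective pt
  /-- the arc of an edge (only the values at edges of `G` and at parameters in `[0,1]` matter) -/
  arc : Sym2 V → ℝ → ℝ × ℝ
  arc_cont : ∀ e ∈ G.edgeSet, ContinuousOn (arc e) (Set.Icc 0 1)
  arc_inj : ∀ e ∈ G.edgeSet, Set.InjOn (arc e) (Set.Icc 0 1)
  arc_ends : ∀ e ∈ G.edgeSet, s(arc e 0, arc e 1) = e.map pt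
  arc_avoid : ∀ e ∈ G.edgeSet, ∀ t ∈ Set.Ioo (0 : ℝ) 1, ∀ v, arc e t ≠ pt v
  finite_common : ∀ e ∈ G.edgeSet, ∀ f ∈ G.edgeSet, e ≠ f →
    (arc e '' Set.Icc 0 1 ∩ arc f '' Set.Icc 0 1).Finite
  proper : ∀ e ∈ G.edgeSet, ∀ f ∈ G.edgeSet, e ≠ f →
    ∀ x ∈ arc e '' Set.Ioo 0 1 ∩ arc f '' Set.Ioo 0 1,
      ProperCrossing (arc e '' Set.Icc 0 1) (arc f '' Set.Icc 0 1) x

namespace PlaneDrawing

variable {V : Type} {G : SimpleGraph V}

/-- the arc of the edge `e` as a set of points, with its ends -/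
def edge (D : PlaneDrawing G) (e : Sym2 V) : Set (ℝ × ℝ) := D.arc e '' Set.Icc 0 1

/-- the *mutual crossings* of the edges `e` and `f`: the common interior points of their arcs -/
def crossings (D : PlaneDrawing G) (e f : Sym2 V) : Set (ℝ × ℝ) :=
  D.arc e '' Set.Ioo 0 1 ∩ D.arc f '' Set.Ioo 0 1

/-- The drawing is *planar*: no two edges cross. -/
def IsPlanar (D : PlaneDrawing G) : Prop :=
  ∀ e ∈ G.edgeSet, ∀ f ∈ G.edgeSet, e ≠ f → D.crossings e f = ∅

/-- the subdrawing `D[H]` of a subgraph `H` -/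
def sub (D : PlaneDrawing G) {H : SimpleGraph V} (h : H ≤ G) : PlaneDrawing H where
  pt := D.pt
  pt_injective := D.pt_injective
  arc := D.arc
  arc_cont := fun e he => D.arc_cont e (SimpleGraph.edgeSet_mono h he)
  arc_inj := fun e he => D.arc_inj e (SimpleGraph.edgeSet_mono h he)
  arc_ends := fun e he => D.arc_ends e (SimpleGraph.edgeSet_mono h he)
  arc_avoid := fun e he => D.arc_avoid e (SimpleGraph.edgeSet_mono h he)
  finite_common := fun e he f hf =>
    D.finite_common e (SimpleGraph.edgeSet_mono h he) f (SimpleGraph.edgeSet_mono h hf)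
  proper := fun e he f hf =>
    D.proper e (SimpleGraph.edgeSet_mono h he) f (SimpleGraph.edgeSet_mono h hf)

/-- `iocr(D)`: the number of (unordered) pairs of independent edges, i.e. edges without a common end,
whose number of mutual crossings is odd. -/
noncomputable def iocr (D : PlaneDrawing G) : ℕ∞ :=
  {p : Sym2 (Sym2 V) | ∃ e ∈ G.edgeSet, ∃ f ∈ G.edgeSet, p = s(e, f) ∧ (∀ v ∈ e, v ∉ f) ∧
    Odd (D.crossings e f).ncard}.encard

end PlaneDrawing

/-- `siocr(G₁, G₂)`: the minimum of `iocr(D[G₁]) + iocr(D[G₂])` over all drawings `D` of `G₁ ∪ G₂`. -/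
noncomputable def siocr {V : Type} (G₁ G₂ : SimpleGraph V) : ℕ∞ :=
  ⨅ D : PlaneDrawing (G₁ ⊔ G₂),
    (D.sub (le_sup_left : G₁ ≤ G₁ ⊔ G₂)).iocr + (D.sub (le_sup_right : G₂ ≤ G₁ ⊔ G₂)).iocr

/-- The pair `(G₁, G₂)` admits a *SEFE* (simultaneous embedding with fixed edges): there are planar
drawings of `G₁` and of `G₂` in which every vertex is the same point and every common edge is the same
arc (as a set of points). -/
def AdmitsSEFE {V : Type} (G₁ G₂ : SimpleGraph V) : Prop :=
  ∃ (Γ₁ : PlaneDrawing G₁) (Γ₂ : PlaneDrawing G₂), Γ₁.IsPlanar ∧ Γ₂.IsPlanar ∧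
    (∀ v, Γ₁.pt v = Γ₂.pt v) ∧ ∀ e, e ∈ G₁.edgeSet → e ∈ G₂.edgeSet → Γ₁.edge e = Γ₂.edge e

end Pool.Agent.Lib.MP_3c943f_co
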