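import Pool.Agent.Lib.MP_3c943f_co.Build

/-!
# The pair of graphs

Vertices: `0 = c₀`, `1, 2, 3 = a₀, a₁, a₂`, `4, 5, 6 = b₀, b₁, b₂`, `7 = c₁`. Common edges: `c₀ c₁`, `c₀ a_k`,
`b_k c₁`; the graph `GA` has in addition `a_k b_k` and `GB` has `a_k b_(k+1)` (indices mod 3).
-/

namespace Pool.Agent.Lib.MP_3c943f_co

open Set

/-- the common edges -/
def common : Finset (Sym2 (Fin 8)) :=
  {s(0, 7), s(0, 1), s(0, 2), s(0, 3), s(4, 7), s(5, 7), s(6, 7)}

/-- the edges of the first graph -/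
def edgesA : Finset (Sym2 (Fin 8)) := common ∪ {s(1, 4), s(2, 5), s(3, 6)}

/-- the edges of the second graph -/
def edgesB : Finset (Sym2 (Fin 8)) := common ∪ {s(1, 5), s(2, 6), s(3, 4)}

/-- the first graph -/
abbrev GA : SimpleGraph (Fin 8) := SimpleGraph.fromEdgeSet (edgesA : Set (Sym2 (Fin 8)))

/-- the second graph -/
abbrev GB : SimpleGraph (Fin 8) := SimpleGraph.fromEdgeSet (edgesB : Set (Sym2 (Fin 8)))

/-- heights from a table of the values at the inner integers -/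
def tab (T : ℕ → ℕ → List ℤ) (a b : Fin 8) (i : ℕ) : ℤ :=
  if (a : ℕ) < i ∧ i < b then (T a b).getD (i - a - 1) 0 else 0

/-- the table for the drawing of the union -/
def TU : ℕ → ℕ → List ℤ
  | 0, 2 => [1]
  | 0, 3 => [-1, 1]
  | 0, 7 => [-2, -3, -3, -3, -2, -2]
  | 1, 4 => [-1, 1]
  | 1, 5 => [-2, 2, 1]
  | 2, 5 => [-1, 2]
  | 2, 6 => [-2, -1, 1]
  | 3, 6 => [-2, 2]
  | 4, 7 => [-1, 1]
  | 5, 7 => [-1]
  | _, _ => []

/-- the table for a planar drawing of `GA` -/
def TA : ℕ → ℕ → List ℤ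
  | 0, 2 => [-1]
  | 0, 3 => [-2, -1]
  | 0, 7 => [-3, -2, -1, -3, -2, -1]
  | 1, 4 => [1, 2]
  | 2, 5 => [1, -1]
  | 3, 6 => [-2, -1]
  | 4, 7 => [1, 2]
  | 5, 7 => [1]
  | _, _ => []

/-- the table for a planar drawing of `GB` -/
def TB : ℕ → ℕ → List ℤ
  | 0, 2 => [-1]
  | 0, 3 => [-2, -1]
  | 0, 7 => [-3, -2, -1, -1, -3, -2]
  | 1, 5 => [1, 2, 2]
  | 2, 6 => [1, 1, -1]
  | 4, 7 => [-2, -1]
  | 5, 7 => [1]
  | _, _ => []

set_option synthInstance.maxSize 2000 in
theorem good_union : Good (GA ⊔ GB) (tab TU) where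
  ends := by decide +kernel
  inner := by decide +kernel
  pairs := by decide +kernel

set_option synthInstance.maxSize 2000 in
theorem good_A : Good GA (tab TA) where
  ends := by decide +kernel
  inner := by decide +kernel
  pairs := by decide +kernel

set_option synthInstance.maxSize 2000 in
theorem good_B : Good GB (tab TB) where
  ends := by decide +kernel
  inner := by decide +kernel
  pairs := by decide +kernel

theorem planar_A : ∃ D : PlaneDrawing GA, D.IsPlanar := by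
  refine ⟨ofHeights GA (tab TA) good_A, ?_⟩
  intro e he f hf hef
  obtain ⟨a, b, hab, hadj, rfl, -, -⟩ := edge_cases he
  obtain ⟨c, d, hcd, hadj', rfl, -, -⟩ := edge_cases hf
  have hne : ¬ (a = c ∧ b = d) := by rintro ⟨rfl, rfl⟩; exact hef rfl
  obtain ⟨h1, h2⟩ := ofHeights_crossings good_A hab hcd hadj hadj' hne
  rw [← Set.ncard_eq_zero h1, h2]
  revert hne hadj hadj' hab hcd
  clear h1 h2 he hf hef
  revert a b c d
  decide +kernel

theorem planar_B : ∃ D : PlaneDrawing GB, D.IsPlanar := by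
  refine ⟨ofHeights GB (tab TB) good_B, ?_⟩
  intro e he f hf hef
  obtain ⟨a, b, hab, hadj, rfl, -, -⟩ := edge_cases he
  obtain ⟨c, d, hcd, hadj', rfl, -, -⟩ := edge_cases hf
  have hne : ¬ (a = c ∧ b = d) := by rintro ⟨rfl, rfl⟩; exact hef rfl
  obtain ⟨h1, h2⟩ := ofHeights_crossings good_B hab hcd hadj hadj' hne
  rw [← Set.ncard_eq_zero h1, h2]
  revert hne hadj hadj' hab hcd
  clear h1 h2 he hf hef
  revert a b c d
  decide +kernel

theorem even_A : ∀ a b c d : Fin 8, a < b → c < d → GA.Adj a b → GA.Adj c d →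
    a ≠ c → a ≠ d → b ≠ c → b ≠ d →
    Even (flips (tab TU a b) (tab TU c d) (max (a : ℕ) c) (min (b : ℕ) d)).card := by
  decide +kernel

theorem even_B : ∀ a b c d : Fin 8, a < b → c < d → GB.Adj a b → GB.Adj c d →
    a ≠ c → a ≠ d → b ≠ c → b ≠ d →
    Even (flips (tab TU a b) (tab TU c d) (max (a : ℕ) c) (min (b : ℕ) d)).card := by
  decide +kernel

theorem siocr_eq_zero : siocr GA GB = 0 := by
  set D : PlaneDrawing (GA ⊔ GB) := ofHeights (GA ⊔ GB) (tab TU) good_union with hD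
  have key : ∀ H : SimpleGraph (Fin 8), ∀ h : H ≤ GA ⊔ GB,
      (∀ a b c d : Fin 8, a < b → c < d → H.Adj a b → H.Adj c d →
        a ≠ c → a ≠ d → b ≠ c → b ≠ d →
        Even (flips (tab TU a b) (tab TU c d) (max (a : ℕ) c) (min (b : ℕ) d)).card) →
      (D.sub h).iocr = 0 := by
    intro H h hev
    unfold PlaneDrawing.iocr
    rw [Set.encard_eq_zero, Set.eq_empty_iff_forall_notMem]
    rintro p ⟨e, he, f, hf, -, hdis, hodd⟩
    obtain ⟨a, b, hab, hadj, rfl, -, -⟩ := edge_cases he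
    obtain ⟨c, d, hcd, hadj', rfl, -, -⟩ := edge_cases hf
    have h1 := hdis a (Sym2.mem_mk_left _ _)
    have h2 := hdis b (Sym2.mem_mk_right _ _)
    simp only [Sym2.mem_iff, not_or] at h1 h2
    have h3 := hev a b c d hab hcd hadj hadj' h1.1 h1.2 h2.1 h2.2
    have hne : ¬ (a = c ∧ b = d) := fun h => h1.1 h.1
    obtain ⟨-, h4⟩ := ofHeights_crossings good_union hab hcd (h hadj) (h hadj') hne
    have h5 : (D.sub h).crossings s(a, b) s(c, d) = D.crossings s(a, b) s(c, d) := rfl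
    rw [h5, hD, h4] at hodd
    exact (Nat.not_odd_iff_even.2 h3) hodd
  have h0 : siocr GA GB ≤ 0 := by
    unfold siocr
    refine (iInf_le _ D).trans ?_
    rw [key GA le_sup_left even_A, key GB le_sup_right even_B, add_zero]
  exact le_antisymm h0 (zero_le)

end Pool.Agent.Lib.MP_3c943f_co
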