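import Pool.Agent.Lib.MP_3c943f_co.Defs

/-!
# Drawings with `x`-monotone polygonal edges, given by integer heights

The vertex `v : Fin n` is the point `(v, 0)`; the edge `e` runs over the interval between its ends as the
graph of the piecewise linear function with the integer value `H e i` at the integer `i`.
-/

namespace Pool.Agent.Lib.MP_3c943f_co

open Set

/-- piecewise linear interpolation of `h` at the integers `0, ..., N - 1` -/
noncomputable def Y (N : ℕ) (h : ℕ → ℤ) (x : ℝ) : ℝ :=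
  ∑ j ∈ Finset.range N, (h j : ℝ) * max 0 (1 - |x - j|)

theorem Y_continuous (N : ℕ) (h : ℕ → ℤ) : Continuous (Y N h) := by
  unfold Y
  fun_prop

theorem Y_strip {N : ℕ} {h : ℕ → ℤ} {i : ℕ} (hi : i + 1 < N) {x : ℝ} (h1 : (i : ℝ) ≤ x)
    (h2 : x ≤ i + 1) : Y N h x = h i * (i + 1 - x) + h (i + 1) * (x - i) := by
  unfold Y
  have hsub : ({i, i + 1} : Finset ℕ) ⊆ Finset.range N := by
    intro j hj
    simp only [Finset.mem_insert, Finset.mem_singleton] at hj
    simp only [Finset.mem_range]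
    omega
  rw [← Finset.sum_subset hsub]
  · rw [Finset.sum_pair (by omega)]
    have e1 : max 0 (1 - |x - (i : ℝ)|) = i + 1 - x := by
      rw [abs_of_nonneg (by linarith), max_eq_right (by linarith)]
      ring
    have e2 : max 0 (1 - |x - ((i + 1 : ℕ) : ℝ)|) = x - i := by
      push_cast
      rw [abs_of_nonpos (by linarith), max_eq_right (by linarith)]
      ring
    rw [e1, e2]
  · intro j _ hj
    simp only [Finset.mem_insert, Finset.mem_singleton, not_or] at hj
    have : max 0 (1 - |x - (j : ℝ)|) = 0 := by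
      apply max_eq_left
      rcases Nat.lt_or_ge j i with h3 | h3
      · have h4 : (j : ℝ) + 1 ≤ i := by exact_mod_cast h3
        rw [abs_of_nonneg (by linarith)]
        linarith
      · have h3 : i + 2 ≤ j := by omega
        have h4 : (i : ℝ) + 2 ≤ j := by exact_mod_cast h3
        rw [abs_of_nonpos (by linarith)]
        linarith
    rw [this, mul_zero]

theorem Y_int {N : ℕ} {h : ℕ → ℤ} {i : ℕ} (hi : i < N) : Y N h (i : ℝ) = h i := by
  unfold Y
  rw [Finset.sum_eq_single i]
  · simp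
  · intro j _ hj
    have : max 0 (1 - |(i : ℝ) - (j : ℝ)|) = 0 := by
      apply max_eq_left
      rcases Nat.lt_or_ge j i with h3 | h3
      · have h4 : (j : ℝ) + 1 ≤ i := by exact_mod_cast h3
        rw [abs_of_nonneg (by linarith)]
        linarith
      · have h3 : i + 1 ≤ j := by omega
        have h4 : (i : ℝ) + 1 ≤ j := by exact_mod_cast h3
        rw [abs_of_nonpos (by linarith)]
        linarith
    rw [this, mul_zero]
  · intro h1
    exact absurd (Finset.mem_range.2 hi) h1

/-- the part of the graph of `Y N h` over `[l, r]`, parametrised by `[0, 1]` -/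
noncomputable def curve (N : ℕ) (h : ℕ → ℤ) (l r : ℕ) (t : ℝ) : ℝ × ℝ :=
  ((l : ℝ) + t * (r - l), Y N h ((l : ℝ) + t * (r - l)))

theorem curve_continuous (N : ℕ) (h : ℕ → ℤ) (l r : ℕ) : Continuous (curve N h l r) := by
  unfold curve
  exact (by fun_prop : Continuous fun t : ℝ => (l : ℝ) + t * (r - l)).prodMk
    ((Y_continuous N h).comp (by fun_prop))

theorem curve_injective (N : ℕ) (h : ℕ → ℤ) {l r : ℕ} (hlr : l < r) :
    Function.Injective (curve N h l r) := by
  intro t t' htt
  unfold curve at htt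
  simp only [Prod.mk.injEq] at htt
  have h1 : (l : ℝ) < r := by exact_mod_cast hlr
  have h2 : t * ((r : ℝ) - l) = t' * (r - l) := by linarith [htt.1]
  exact mul_right_cancel₀ (by linarith) h2

theorem curve_Icc (N : ℕ) (h : ℕ → ℤ) {l r : ℕ} (hlr : l < r) :
    curve N h l r '' Icc 0 1 = {z | z.1 ∈ Icc (l : ℝ) r ∧ z.2 = Y N h z.1} := by
  have h1 : (l : ℝ) < r := by exact_mod_cast hlr
  ext z
  constructor
  · rintro ⟨t, ht, rfl⟩
    refine ⟨⟨?_, ?_⟩, rfl⟩
    · unfold curve; simp only; nlinarith [ht.1]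
    · unfold curve; simp only; nlinarith [ht.2]
  · rintro ⟨hz, hz2⟩
    refine ⟨(z.1 - l) / (r - l), ⟨div_nonneg (by linarith [hz.1]) (by linarith), ?_⟩, ?_⟩
    · rw [div_le_one (by linarith)]; linarith [hz.2]
    · have e : (l : ℝ) + (z.1 - l) / (r - l) * (r - l) = z.1 := by
        rw [div_mul_cancel₀ _ (by linarith)]; ring
      unfold curve
      rw [e]
      exact Prod.ext rfl hz2.symm

theorem curve_Ioo (N : ℕ) (h : ℕ → ℤ) {l r : ℕ} (hlr : l < r) :
    curve N h l r '' Ioo 0 1 = {z | z.1 ∈ Ioo (l : ℝ) r ∧ z.2 = Y N h z.1} := by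
  have h1 : (l : ℝ) < r := by exact_mod_cast hlr
  ext z
  constructor
  · rintro ⟨t, ht, rfl⟩
    refine ⟨⟨?_, ?_⟩, rfl⟩
    · unfold curve; simp only; nlinarith [ht.1]
    · unfold curve; simp only; nlinarith [ht.2]
  · rintro ⟨hz, hz2⟩
    refine ⟨(z.1 - l) / (r - l), ⟨div_pos (by linarith [hz.1]) (by linarith), ?_⟩, ?_⟩
    · rw [div_lt_one (by linarith)]; linarith [hz.2]
    · have e : (l : ℝ) + (z.1 - l) / (r - l) * (r - l) = z.1 := by
        rw [div_mul_cancel₀ _ (by linarith)]; ring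
      unfold curve
      rw [e]
      exact Prod.ext rfl hz2.symm

/-! ### Two curves -/

/-- general position of two height functions over `[l, r]` -/
def GenPos (h h' : ℕ → ℤ) (l r : ℕ) : Prop :=
  (∀ i, l < i → i < r → h i ≠ h' i) ∧ ∀ i, l ≤ i → i + 1 ≤ r → (h i ≠ h' i ∨ h (i + 1) ≠ h' (i + 1))

/-- the strips between `l` and `r` in which the curves change sides -/
def flips (h h' : ℕ → ℤ) (l r : ℕ) : Finset ℕ :=
  (Finset.range r).filter (fun i => l ≤ i ∧ (h i - h' i) * (h (i + 1) - h' (i + 1)) < 0)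

/-- the crossing in the strip `i` -/
noncomputable def xi (h h' : ℕ → ℤ) (i : ℕ) : ℝ :=
  i + (h i - h' i : ℝ) / ((h i - h' i) - (h (i + 1) - h' (i + 1)))

theorem xi_mem {h h' : ℕ → ℤ} {i : ℕ} (hi : (h i - h' i) * (h (i + 1) - h' (i + 1)) < 0) :
    xi h h' i ∈ Ioo (i : ℝ) (i + 1) ∧
      (h i - h' i : ℝ) * (i + 1 - xi h h' i) + (h (i + 1) - h' (i + 1)) * (xi h h' i - i) = 0 := by
  have h1 : ((h i : ℝ) - h' i) * ((h (i + 1) : ℝ) - h' (i + 1)) < 0 := by exact_mod_cast hi
  set a : ℝ := (h i : ℝ) - h' i with ha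
  set b : ℝ := (h (i + 1) : ℝ) - h' (i + 1) with hb
  have hab : a - b ≠ 0 := by
    intro h2
    have : a = b := by linarith
    rw [this] at h1
    nlinarith [mul_self_nonneg b]
  have hx : xi h h' i = i + a / (a - b) := rfl
  rw [hx]
  refine ⟨⟨?_, ?_⟩, ?_⟩
  · have : 0 < a / (a - b) := by
      rcases mul_neg_iff.1 h1 with ⟨h2, h3⟩ | ⟨h2, h3⟩
      · exact div_pos h2 (by linarith)
      · exact div_pos_of_neg_of_neg h2 (by linarith)
    linarith
  · have : a / (a - b) < 1 := by
      rcases mul_neg_iff.1 h1 with ⟨h2, h3⟩ | ⟨h2, h3⟩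
      · rw [div_lt_one (by linarith)]; linarith
      · rw [div_lt_one_of_neg (by linarith)]; linarith
    linarith
  · field_simp
    ring

theorem meet_strip {N : ℕ} {h h' : ℕ → ℤ} {l r : ℕ} (hr : r < N) (hg : GenPos h h' l r) {x : ℝ}
    (h1 : (l : ℝ) < x) (h2 : x < r) (hx : Y N h x = Y N h' x) :
    ∃ i ∈ flips h h' l r, x = xi h h' i := by
  set i := ⌊x⌋₊ with hi
  have hx0 : 0 ≤ x := by
    have : (0 : ℝ) ≤ l := Nat.cast_nonneg l
    linarith
  have h3 : (i : ℝ) ≤ x := Nat.floor_le hx0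
  have h4 : x < i + 1 := Nat.lt_floor_add_one x
  have hli : l ≤ i := Nat.le_floor h1.le
  have hir : i < r := by
    have : (i : ℝ) < r := lt_of_le_of_lt h3 h2
    exact_mod_cast this
  have e1 := Y_strip (h := h) (show i + 1 < N by omega) h3 h4.le
  have e2 := Y_strip (h := h') (show i + 1 < N by omega) h3 h4.le
  have e3 : (h i - h' i : ℝ) * (i + 1 - x) + (h (i + 1) - h' (i + 1)) * (x - i) = 0 := by
    rw [e1, e2] at hx; linarith
  -- `x` is not an integer
  have hne : (i : ℝ) < x := by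
    rcases eq_or_lt_of_le h3 with h5 | h5
    · exfalso
      rw [← h5] at e3 h1
      have hli' : l < i := by exact_mod_cast h1
      have h6 : (h i - h' i : ℝ) = 0 := by linarith
      have h7 : h i = h' i := by
        have : (h i : ℝ) = h' i := by linarith
        exact_mod_cast this
      exact hg.1 i hli' hir h7
    · exact h5
  have hkey : ((h i : ℝ) - h' i) * (h (i + 1) - h' (i + 1)) < 0 := by
    have p : 0 < (i : ℝ) + 1 - x := by linarith
    have q : 0 < x - i := by linarith
    rcases lt_trichotomy ((h i : ℝ) - h' i) 0 with h5 | h5 | h5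
    · have h6 : 0 < (h (i + 1) : ℝ) - h' (i + 1) := by
        by_contra hcon
        push Not at hcon
        nlinarith [mul_neg_of_neg_of_pos h5 p, mul_nonpos_of_nonpos_of_nonneg hcon q.le]
      exact mul_neg_of_neg_of_pos h5 h6
    · exfalso
      rw [h5, zero_mul, zero_add] at e3
      have h6 : (h (i + 1) : ℝ) - h' (i + 1) = 0 := by
        rcases mul_eq_zero.1 e3 with h6 | h6
        · exact h6
        · linarith
      rcases hg.2 i hli (by omega) with h7 | h7
      · apply h7
        have : (h i : ℝ) = h' i := by linarith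
        exact_mod_cast this
      · apply h7
        have : (h (i + 1) : ℝ) = h' (i + 1) := by linarith
        exact_mod_cast this
    · have h6 : (h (i + 1) : ℝ) - h' (i + 1) < 0 := by
        by_contra hcon
        push Not at hcon
        nlinarith [mul_pos h5 p, mul_nonneg hcon q.le]
      exact mul_neg_of_pos_of_neg h5 h6
  have hkey' : (h i - h' i) * (h (i + 1) - h' (i + 1)) < 0 := by exact_mod_cast hkey
  refine ⟨i, ?_, ?_⟩
  · unfold flips
    simp only [Finset.mem_filter, Finset.mem_range]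
    exact ⟨hir, hli, hkey'⟩
  · have hx2 := (xi_mem hkey').2
    set a : ℝ := (h i : ℝ) - h' i with ha
    set b : ℝ := (h (i + 1) : ℝ) - h' (i + 1) with hb
    have hab : a - b ≠ 0 := by
      intro h2
      have : a = b := by linarith
      rw [this] at hkey
      nlinarith [mul_self_nonneg b]
    have h8 : (a - b) * (x - xi h h' i) = 0 := by
      have : a * (i + 1 - x) + b * (x - i) - (a * (i + 1 - xi h h' i) + b * (xi h h' i - i)) = 0 := by
        rw [e3, hx2]; ring
      linarith
    rcases mul_eq_zero.1 h8 with h9 | h9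
    · exact absurd h9 hab
    · linarith

/-- the crossings of two curves over intersecting intervals -/
theorem common_eq {N : ℕ} {h h' : ℕ → ℤ} {l r l' r' : ℕ} (hlr : l < r) (hlr' : l' < r')
    (hr : r < N) (hg : GenPos h h' (max l l') (min r r')) :
    curve N h l r '' Ioo 0 1 ∩ curve N h' l' r' '' Ioo 0 1 =
      (fun i => (xi h h' i, Y N h (xi h h' i))) '' (flips h h' (max l l') (min r r') : Set ℕ) := by
  rw [curve_Ioo _ _ hlr, curve_Ioo _ _ hlr']
  ext z
  constructor
  · rintro ⟨⟨h1, h2⟩, h3, h4⟩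
    obtain ⟨i, hi, hx⟩ := meet_strip (N := N) (show min r r' < N by omega) hg (x := z.1)
      (by push_cast; exact max_lt h1.1 h3.1) (by push_cast; exact lt_min h1.2 h3.2)
      (by rw [← h2, ← h4])
    exact ⟨i, hi, Prod.ext hx.symm (by simp only; rw [← hx, h2])⟩
  · rintro ⟨i, hi, rfl⟩
    have hi' := hi
    unfold flips at hi
    simp only [Finset.coe_filter, Finset.mem_range, mem_ofPred_eq, lt_min_iff, max_le_iff] at hi
    obtain ⟨⟨h1, h2⟩, ⟨h3, h4⟩, h5⟩ := hi
    obtain ⟨⟨h6, h7⟩, h8⟩ := xi_mem h5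
    have c1 : (l : ℝ) ≤ i := by exact_mod_cast h3
    have c2 : (l' : ℝ) ≤ i := by exact_mod_cast h4
    have c3 : (i : ℝ) + 1 ≤ r := by exact_mod_cast h1
    have c4 : (i : ℝ) + 1 ≤ r' := by exact_mod_cast h2
    refine ⟨⟨⟨by simp only; linarith, by simp only; linarith⟩, rfl⟩,
      ⟨by simp only; linarith, by simp only; linarith⟩, ?_⟩
    simp only
    rw [Y_strip (show i + 1 < N by omega) h6.le h7.le, Y_strip (show i + 1 < N by omega) h6.le h7.le]
    linarith

theorem common_ncard {N : ℕ} {h h' : ℕ → ℤ} {l r l' r' : ℕ} (hlr : l < r) (hlr' : l' < r')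
    (hr : r < N) (hg : GenPos h h' (max l l') (min r r')) :
    (curve N h l r '' Ioo 0 1 ∩ curve N h' l' r' '' Ioo 0 1).ncard =
      (flips h h' (max l l') (min r r')).card := by
  rw [common_eq hlr hlr' hr hg, Set.InjOn.ncard_image, Set.ncard_coe_finset]
  intro i hi j hj hij
  simp only [Prod.mk.injEq] at hij
  unfold flips at hi hj
  simp only [Finset.coe_filter, Finset.mem_range, mem_ofPred_eq] at hi hj
  obtain ⟨⟨h1, h2⟩, -⟩ := xi_mem hi.2.2
  obtain ⟨⟨h3, h4⟩, -⟩ := xi_mem hj.2.2
  rw [hij.1] at h1 h2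
  have h5 : (i : ℝ) < j + 1 := by linarith
  have h6 : (j : ℝ) < i + 1 := by linarith
  have h7 : i < j + 1 := by exact_mod_cast h5
  have h8 : j < i + 1 := by exact_mod_cast h6
  omega

/-- the shear which makes two lines of different slopes the coordinate axes -/
noncomputable def shearHomeo (p m p' m' : ℝ) (hm : m' - m ≠ 0) : (ℝ × ℝ) ≃ₜ (ℝ × ℝ) where
  toFun z := (z.2 - (p + m * z.1), z.2 - (p' + m' * z.1))
  invFun w := ((w.1 - w.2 - (p' - p)) / (m' - m), w.1 + (p + m * ((w.1 - w.2 - (p' - p)) / (m' - m))))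
  left_inv z := by
    have : (z.2 - (p + m * z.1) - (z.2 - (p' + m' * z.1)) - (p' - p)) / (m' - m) = z.1 := by
      field_simp
      ring
    refine Prod.ext ?_ ?_
    · simp only; exact this
    · simp only; rw [this]; ring
  right_inv w := by
    refine Prod.ext ?_ ?_
    · simp only; ring
    · simp only
      field_simp
      ring
  continuous_toFun := by fun_prop
  continuous_invFun := by fun_prop

theorem proper_of_flip {N : ℕ} {h h' : ℕ → ℤ} {l r l' r' : ℕ} (hlr : l < r) (hlr' : l' < r')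
    (hr : r < N) (hg : GenPos h h' (max l l') (min r r')) {x : ℝ × ℝ}
    (hx : x ∈ curve N h l r '' Ioo 0 1 ∩ curve N h' l' r' '' Ioo 0 1) :
    ProperCrossing (curve N h l r '' Icc 0 1) (curve N h' l' r' '' Icc 0 1) x := by
  rw [common_eq hlr hlr' hr hg] at hx
  obtain ⟨i, hi, rfl⟩ := hx
  unfold flips at hi
  simp only [Finset.coe_filter, Finset.mem_range, mem_ofPred_eq, lt_min_iff, max_le_iff] at hi
  obtain ⟨⟨h1, h2⟩, ⟨h3, h4⟩, h5⟩ := hi
  obtain ⟨⟨h6, h7⟩, h8⟩ := xi_mem h5
  have c1 : (l : ℝ) ≤ i := by exact_mod_cast h3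
  have c2 : (l' : ℝ) ≤ i := by exact_mod_cast h4
  have c3 : (i : ℝ) + 1 ≤ r := by exact_mod_cast h1
  have c4 : (i : ℝ) + 1 ≤ r' := by exact_mod_cast h2
  have h5' : ((h i : ℝ) - h' i) * ((h (i + 1) : ℝ) - h' (i + 1)) < 0 := by exact_mod_cast h5
  -- the two lines
  set m : ℝ := (h (i + 1) : ℝ) - h i with hm
  set m' : ℝ := (h' (i + 1) : ℝ) - h' i with hm'
  set p : ℝ := h i * (i + 1) - h (i + 1) * i with hp
  set p' : ℝ := h' i * (i + 1) - h' (i + 1) * i with hp'
  have hmm : m' - m ≠ 0 := by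
    intro h0
    have : (h i : ℝ) - h' i = (h (i + 1) : ℝ) - h' (i + 1) := by rw [hm, hm'] at h0; linarith
    rw [this] at h5'
    nlinarith [mul_self_nonneg ((h (i + 1) : ℝ) - h' (i + 1))]
  have hY : ∀ x : ℝ, (i : ℝ) ≤ x → x ≤ i + 1 → Y N h x = p + m * x := by
    intro x hx1 hx2
    rw [Y_strip (show i + 1 < N by omega) hx1 hx2, hp, hm]; ring
  have hY' : ∀ x : ℝ, (i : ℝ) ≤ x → x ≤ i + 1 → Y N h' x = p' + m' * x := by
    intro x hx1 hx2
    rw [Y_strip (show i + 1 < N by omega) hx1 hx2, hp', hm']; ring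
  have hU : IsOpen {z : ℝ × ℝ | (i : ℝ) < z.1 ∧ z.1 < i + 1} :=
    (isOpen_lt continuous_const continuous_fst).inter (isOpen_lt continuous_fst continuous_const)
  refine ⟨(shearHomeo p m p' m' hmm).toOpenPartialHomeomorph.restrOpen _ hU, ?_, ?_, ?_⟩
  · simp only [OpenPartialHomeomorph.restrOpen_source, Homeomorph.toOpenPartialHomeomorph_source,
      mem_inter_iff, mem_univ, true_and, mem_ofPred_eq]
    exact ⟨h6, h7⟩
  · have e1 := hY _ h6.le h7.le
    have e2 := hY' _ h6.le h7.le
    have e3 : Y N h (xi h h' i) = Y N h' (xi h h' i) := by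
      rw [Y_strip (show i + 1 < N by omega) h6.le h7.le,
        Y_strip (show i + 1 < N by omega) h6.le h7.le]
      linarith
    refine Prod.ext ?_ ?_
    · show Y N h (xi h h' i) - (p + m * xi h h' i) = 0
      rw [e1]; ring
    · show Y N h (xi h h' i) - (p' + m' * xi h h' i) = 0
      rw [e3, e2]; ring
  · intro z hz
    simp only [OpenPartialHomeomorph.restrOpen_source, Homeomorph.toOpenPartialHomeomorph_source,
      mem_inter_iff, mem_univ, true_and, mem_ofPred_eq] at hz
    have e1 := hY z.1 hz.1.le hz.2.le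
    have e2 := hY' z.1 hz.1.le hz.2.le
    constructor
    · rw [curve_Icc _ _ hlr]
      constructor
      · rintro ⟨-, hz2⟩
        show z.2 - (p + m * z.1) = 0
        rw [hz2, e1]; ring
      · intro h0
        have h0' : z.2 - (p + m * z.1) = 0 := h0
        exact ⟨⟨by linarith [hz.1], by linarith [hz.2]⟩, by rw [e1]; linarith⟩
    · rw [curve_Icc _ _ hlr']
      constructor
      · rintro ⟨-, hz2⟩
        show z.2 - (p' + m' * z.1) = 0
        rw [hz2, e2]; ring
      · intro h0
        have h0' : z.2 - (p' + m' * z.1) = 0 := h0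
        exact ⟨⟨by linarith [hz.1], by linarith [hz.2]⟩, by rw [e2]; linarith⟩

end Pool.Agent.Lib.MP_3c943f_co
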