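import Pool.Agent.Lib.MP_3c943f_co.Parity

/-!
# The parity of a cycle at a neighbour of one of its vertices
-/

namespace Pool.Agent.Lib.MP_3c943f_co

open Pool.Agent.Lib.MP_266831_co (AxisPath)

section

variable {V : Type} {G : SimpleGraph V} {F : Sym2 V → Sym2 V → Prop} (M : SModel G F)

/-- the cycle `c d q p` -/
def cyc4 (c d p q : V) : List (V × V) := [(c, d), (c, p), (p, q), (d, q)]

theorem cyc4_closed (c d p q : V) : Closed (cyc4 c d p q) := by
  intro f
  simp only [cyc4, List.map_cons, List.map_nil, List.sum_cons, List.sum_nil]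
  linear_combination two_add (f c) + two_add (f d) + two_add (f p) + two_add (f q)

/-- the first piece of `c a` is above (or below) the first point of `c l` -/
noncomputable def fst (c a l : V) : ZMod 2 :=
  ind ((M.A c a).side 0 = (M.A c l).side 0 ∧ Btw (M.x c) ((M.A c l).z 1) ((M.A c a).z 1))

variable {M} {c d p q l : V}

theorem local_eq (hcd : G.Adj c d) (hcp : G.Adj c p) (hpq : G.Adj p q) (hdq : G.Adj d q)
    (hcl : G.Adj c l) (F1 : F s(c, d) s(c, l)) (F2 : F s(c, p) s(c, l)) (F3 : F s(p, q) s(c, l))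
    (F4 : F s(d, q) s(c, l)) (hld : l ≠ d) (hlp : l ≠ p) (hlq : l ≠ q) (hcq : c ≠ q) :
    S M (cyc4 c d p q) true (M.x l) =
      S M (cyc4 c d p q) ((M.A c l).side 0) (M.x c) + (fst M c d l + fst M c p l) := by
  have hC : ∀ e ∈ cyc4 c d p q, G.Adj e.1 e.2 := by
    intro e he
    simp only [cyc4, List.mem_cons, List.not_mem_nil, or_false] at he
    rcases he with rfl | rfl | rfl | rfl <;> assumption
  have hF : ∀ e ∈ cyc4 c d p q, F s(e.1, e.2) s(c, l) := by
    intro e he
    simp only [cyc4, List.mem_cons, List.not_mem_nil, or_false] at he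
    rcases he with rfl | rfl | rfl | rfl <;> assumption
  have hl : ∀ e ∈ cyc4 c d p q, e.1 ≠ l ∧ e.2 ≠ l := by
    intro e he
    simp only [cyc4, List.mem_cons, List.not_mem_nil, or_false] at he
    rcases he with rfl | rfl | rfl | rfl
    · exact ⟨hcl.ne, hld.symm⟩
    · exact ⟨hcl.ne, hlp.symm⟩
    · exact ⟨hlp.symm, hlq.symm⟩
    · exact ⟨hld.symm, hlq.symm⟩
  have h1 : ∀ e ∈ cyc4 c d p q, ∀ i ≤ (M.A e.1 e.2).n + 1, ∀ j, 1 ≤ j → j ≤ (M.A c l).n + 1 →
      (M.A e.1 e.2).z i ≠ (M.A c l).z j := fun e he i hi j hj hj' =>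
    z_ne_tail M (hC e he) hcl (hF e he) (hl e he).1 (hl e he).2 i hi j hj hj'
  rw [← S_walk M hC (cyc4_closed c d p q) hcl hF 1 h1 (by omega) ((M.A c l).side 0) true]
  have z0 := M.z_zero c l hcl
  -- edges starting at `c`
  have e1 : ∀ a, G.Adj c a → F s(c, a) s(c, l) → l ≠ a →
      cov (M.A c a) ((M.A c l).side 0) ((M.A c l).z 1) =
        cov (M.A c a) ((M.A c l).side 0) (M.x c) + fst M c a l := by
    intro a hca hFa hla
    have h2 := cov_first (A := M.A c a) (B := M.A c l) (M.X_zero _ _ _ _ hca hcl hFa)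
      (by rw [M.z_zero c a hca, z0]) (by
        intro i hi hi' heq
        rw [z0, ← M.z_zero c a hca] at heq
        have := M.z_inj c a hca i hi' 0 (by omega) heq
        omega)
      (fun i hi => z_ne_tail M hca hcl hFa hcl.ne hla.symm i hi 1 le_rfl (by omega))
    rw [h2, z0, M.z_zero c a hca]
    rfl
  -- other edges
  have e2 : ∀ a b, G.Adj a b → F s(a, b) s(c, l) → a ≠ c → b ≠ c → a ≠ l → b ≠ l →
      cov (M.A a b) ((M.A c l).side 0) ((M.A c l).z 1) =
        cov (M.A a b) ((M.A c l).side 0) (M.x c) := by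
    intro a b hab hFab h2 h3 h4 h5
    have h6 := cov_piece (A := M.A a b) (B := M.A c l) (M.X_zero _ _ _ _ hab hcl hFab)
      (k := 0) (by omega)
      (fun i hi => z_ne_all M hab hcl hFab h2 h3 h4 h5 i hi 0 (by omega))
      (fun i hi => z_ne_all M hab hcl hFab h2 h3 h4 h5 i hi 1 (by omega))
    rw [← z0]
    exact h6.symm
  simp only [S, cyc4, List.map_cons, List.map_nil, List.sum_cons, List.sum_nil]
  rw [e1 d hcd F1 hld, e1 p hcp F2 hlp, e2 p q hpq F3 hcp.ne.symm hcq.symm hlp.symm hlq.symm,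
    e2 d q hdq F4 hcd.ne.symm hcq.symm hld.symm hlq.symm]
  ring

theorem at_start (hcd : G.Adj c d) (hcp : G.Adj c p) (hpq : G.Adj p q) (hdq : G.Adj d q)
    (hcq : c ≠ q) :
    S M (cyc4 c d p q) true (M.x c) + S M (cyc4 c d p q) false (M.x c) =
      ind ((M.A c d).z 1 < M.x c) + ind ((M.A c p).z 1 < M.x c) := by
  have e1 : ∀ a, G.Adj c a → cov (M.A c a) true (M.x c) + cov (M.A c a) false (M.x c) =
      ind ((M.A c a).z 1 < M.x c) + ind (M.x a < M.x c) := by
    intro a hca
    rw [cov_sum_start (M.A c a) (M.z_zero c a hca), M.z_last c a hca]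
    intro i hi hi' heq
    rw [← M.z_zero c a hca] at heq
    have := M.z_inj c a hca i hi' 0 (by omega) heq
    omega
  have e2 : ∀ a b, G.Adj a b → a ≠ c → b ≠ c →
      cov (M.A a b) true (M.x c) + cov (M.A a b) false (M.x c) =
      ind (M.x a < M.x c) + ind (M.x b < M.x c) := by
    intro a b hab hac hbc
    rw [cov_sum (M.A a b), M.z_zero a b hab, M.z_last a b hab]
    intro i hi
    rcases Nat.eq_zero_or_pos i with rfl | hi0
    · rw [M.z_zero a b hab]; exact fun h => hac (M.x_injective h)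
    · rcases Nat.lt_or_ge (M.A a b).n i with hi1 | hi1
      · have : i = (M.A a b).n + 1 := by omega
        rw [this, M.z_last a b hab]; exact fun h => hbc (M.x_injective h)
      · exact M.z_ne a b hab i hi0 hi1 c
  have f1 := e1 d hcd
  have f2 := e1 p hcp
  have f3 := e2 p q hpq hcp.ne.symm hcq.symm
  have f4 := e2 d q hdq hcd.ne.symm hcq.symm
  simp only [S, cyc4, List.map_cons, List.map_nil, List.sum_cons, List.sum_nil]
  linear_combination f1 + f2 + f3 + f4 + two_add (ind (M.x d < M.x c)) +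
    two_add (ind (M.x p < M.x c)) + two_add (ind (M.x q < M.x c))

end

/-! ### The finite check -/

/-- the local data at the vertex: for the four edges (index `3` is the common edge, `0, 1, 2` the others)
the position `v i` and the side `τ i` of the first piece, `c` is the position of the vertex -/
def sig {α : Type} [LinearOrder α] (c : α) (v : Fin 4 → α) (τ : Fin 4 → Bool) (k l m : Fin 4) : Bool :=
  let b := fun i j : Fin 4 => (τ i == τ j) && ((decide (c < v j) && decide (v j < v i)) ||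
    (decide (v i < v j) && decide (v j < c)))
  ((τ l ^^ τ m) && (decide (v 3 < c) ^^ decide (v k < c))) ^^ ((b 3 l ^^ b k l) ^^ (b 3 m ^^ b k m))

set_option maxRecDepth 100000 in
set_option synthInstance.maxSize 2000 in
theorem sig_fin : ∀ (c v0 v1 v2 v3 : Fin 5), c ≠ v0 → c ≠ v1 → c ≠ v2 → c ≠ v3 → v0 ≠ v1 → v0 ≠ v2 →
    v0 ≠ v3 → v1 ≠ v2 → v1 ≠ v3 → v2 ≠ v3 → ∀ t0 t1 t2 t3 : Bool,
    ¬ (sig c ![v0, v1, v2, v3] ![t0, t1, t2, t3] 0 1 2 = sig c ![v0, v1, v2, v3] ![t0, t1, t2, t3] 1 0 2 ∧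
      sig c ![v0, v1, v2, v3] ![t0, t1, t2, t3] 1 0 2 = sig c ![v0, v1, v2, v3] ![t0, t1, t2, t3] 2 0 1) := by
  decide +kernel

end Pool.Agent.Lib.MP_3c943f_co
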