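import Pool.Agent.Lib.MP_3c943f_co.Graphs
import Pool.Agent.Lib.MP_3c943f_co.Local

/-!
# The pair `GA`, `GB` admits no simultaneous embedding
-/

namespace Pool.Agent.Lib.MP_3c943f_co

open Pool.Agent.Lib.MP_266831_co (AxisPath TopDrawing Drawing)

/-! ### The finite check for real numbers -/

theorem sig_congr {α β : Type} [LinearOrder α] [LinearOrder β] (g : Fin 5 → α) (g' : Fin 5 → β)
    (h : ∀ i j, g i < g j ↔ g' i < g' j) (τ : Fin 4 → Bool) (k l m : Fin 4) :
    sig (g 0) (fun i => g i.succ) τ k l m = sig (g' 0) (fun i => g' i.succ) τ k l m := by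
  simp only [sig, h]

theorem sig_real (c : ℝ) (v : Fin 4 → ℝ) (hc : ∀ i, v i ≠ c) (hv : Function.Injective v)
    (τ : Fin 4 → Bool) :
    ¬ (sig c v τ 0 1 2 = sig c v τ 1 0 2 ∧ sig c v τ 1 0 2 = sig c v τ 2 0 1) := by
  classical
  set g : Fin 5 → ℝ := Fin.cons c v with hg
  have hginj : Function.Injective g := by
    rw [hg, Fin.cons_injective_iff]
    exact ⟨fun ⟨i, hi⟩ => hc i hi, hv⟩
  have hcard : (Finset.univ.image g).card = 5 := by
    rw [Finset.card_image_of_injective _ hginj]; rfl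
  set o := (Finset.univ.image g).orderIsoOfFin hcard with ho
  set r : Fin 5 → Fin 5 := fun i => o.symm ⟨g i, Finset.mem_image_of_mem _ (Finset.mem_univ _)⟩ with hr
  have hlt : ∀ i j, g i < g j ↔ r i < r j := by
    intro i j
    rw [hr]
    simp only [OrderIso.lt_iff_lt, Subtype.mk_lt_mk]
  have hrinj : Function.Injective r := by
    intro i j hij
    rcases lt_trichotomy (g i) (g j) with h | h | h
    · exact absurd hij ((hlt i j).1 h).ne
    · exact hginj h
    · exact absurd hij ((hlt j i).1 h).ne'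
  have e1 : ∀ k l m, sig c v τ k l m = sig (r 0) (fun i => r i.succ) τ k l m := by
    intro k l m
    rw [← sig_congr g r hlt τ k l m]
    rfl
  have e2 : (fun i : Fin 4 => r i.succ) = ![r 1, r 2, r 3, r 4] := by
    funext i; fin_cases i <;> rfl
  have e3 : τ = ![τ 0, τ 1, τ 2, τ 3] := by
    funext i; fin_cases i <;> rfl
  have key := sig_fin (r 0) (r 1) (r 2) (r 3) (r 4) (hrinj.ne (by decide)) (hrinj.ne (by decide))
    (hrinj.ne (by decide)) (hrinj.ne (by decide)) (hrinj.ne (by decide)) (hrinj.ne (by decide))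
    (hrinj.ne (by decide)) (hrinj.ne (by decide)) (hrinj.ne (by decide)) (hrinj.ne (by decide))
    (τ 0) (τ 1) (τ 2) (τ 3)
  rw [← e2, ← e3] at key
  rw [e1, e1, e1]
  exact key

/-- Booleans as elements of `ZMod 2` -/
def bz (b : Bool) : ZMod 2 := if b then 1 else 0

theorem bz_xor (a b : Bool) : bz (a ^^ b) = bz a + bz b := by cases a <;> cases b <;> rfl

theorem bz_injective : Function.Injective bz := by decide

theorem ind_bz {P : Prop} {b : Bool} (h : P ↔ b = true) : ind P = bz b := by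
  cases b
  · rw [ind_false (by simpa using h)]; rfl
  · rw [ind_true (h.2 rfl)]; rfl

/-! ### The parities of the cycles -/

section

variable {F : Sym2 (Fin 8) → Sym2 (Fin 8) → Prop} (M : SModel (GA ⊔ GB) F)

/-- the vertices `a_k` -/
def va : Fin 3 → Fin 8 := ![1, 2, 3]

/-- the vertices `b_k` -/
def vb : Fin 3 → Fin 8 := ![4, 5, 6]

/-- adjacency in the union, in the first and in the second graph, as computable functions -/
def adA (u v : Fin 8) : Bool := decide (s(u, v) ∈ edgesA) && decide (u ≠ v)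

@[inherit_doc adA]
def adB (u v : Fin 8) : Bool := decide (s(u, v) ∈ edgesB) && decide (u ≠ v)

theorem adA_iff {u v : Fin 8} : adA u v = true ↔ GA.Adj u v := by
  unfold adA
  rw [SimpleGraph.fromEdgeSet_adj, Finset.mem_coe, Bool.and_eq_true, decide_eq_true_iff,
    decide_eq_true_iff]

theorem adB_iff {u v : Fin 8} : adB u v = true ↔ GB.Adj u v := by
  unfold adB
  rw [SimpleGraph.fromEdgeSet_adj, Finset.mem_coe, Bool.and_eq_true, decide_eq_true_iff,
    decide_eq_true_iff]

/-- a computable condition for moving along an edge -/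
def chk (C : List (Fin 8 × Fin 8)) (u v : Fin 8) : Bool :=
  (adA u v || adB u v) && C.all fun p =>
    ((adA p.1 p.2 && adA u v) || (adB p.1 p.2 && adB u v)) &&
      (decide (p.1 ≠ u) && decide (p.2 ≠ u) && (decide (p.1 ≠ v) && decide (p.2 ≠ v)))

theorem chk_spec {C : List (Fin 8 × Fin 8)} {u v : Fin 8} (h : chk C u v = true) :
    (∀ p ∈ C, (GA ⊔ GB).Adj p.1 p.2) ∧ (GA ⊔ GB).Adj u v ∧
    (∀ p ∈ C, (GA.Adj p.1 p.2 ∧ GA.Adj u v) ∨ (GB.Adj p.1 p.2 ∧ GB.Adj u v)) ∧
    (∀ p ∈ C, p.1 ≠ u ∧ p.2 ≠ u) ∧ (∀ p ∈ C, p.1 ≠ v ∧ p.2 ≠ v) := by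
  unfold chk at h
  simp only [Bool.and_eq_true, Bool.or_eq_true, List.all_eq_true, decide_eq_true_iff, adA_iff,
    adB_iff] at h
  refine ⟨fun p hp => ?_, h.1, fun p hp => (h.2 p hp).1, fun p hp => (h.2 p hp).2.1,
    fun p hp => (h.2 p hp).2.2⟩
  rcases (h.2 p hp).1 with h1 | h1
  · exact Or.inl h1.1
  · exact Or.inr h1.1

variable {M} (hA : ∀ e ∈ GA.edgeSet, ∀ f ∈ GA.edgeSet, e ≠ f → F e f)
  (hB : ∀ e ∈ GB.edgeSet, ∀ f ∈ GB.edgeSet, e ≠ f → F e f)

include hA hB

theorem S_chk {C : List (Fin 8 × Fin 8)} (hcl : Closed C) {u v : Fin 8} (h : chk C u v = true) :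
    S M C true (M.x u) = S M C true (M.x v) := by
  obtain ⟨h1, h2, h3, h4, h5⟩ := chk_spec h
  refine S_edge M h1 hcl h2 ?_ h4 h5
  intro p hp
  have hne : s(p.1, p.2) ≠ s(u, v) := by
    intro heq
    rw [Sym2.eq_iff] at heq
    rcases heq with ⟨h6, -⟩ | ⟨-, h6⟩
    · exact (h4 p hp).1 h6
    · exact (h4 p hp).2 h6
  rcases h3 p hp with ⟨h6, h7⟩ | ⟨h6, h7⟩
  · exact hA _ h6 _ h7 hne
  · exact hB _ h6 _ h7 hne

variable (M)

omit hA hB in
/-- the parity `σ` of the first graph -/
noncomputable def sg (k l m : Fin 3) : ZMod 2 :=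
  S M (cyc4 0 7 (va k) (vb k)) true (M.x (va l)) + S M (cyc4 0 7 (va k) (vb k)) true (M.x (va m))

omit hA hB in
/-- the parity `σ` of the second graph -/
noncomputable def sg' (k l m : Fin 3) : ZMod 2 :=
  S M (cyc4 0 7 (va k) (vb (k + 1))) true (M.x (va l)) +
    S M (cyc4 0 7 (va k) (vb (k + 1))) true (M.x (va m))

theorem step_one (k l m : Fin 3) (hkl : k ≠ l) (hkm : k ≠ m) : sg M k l m = sg' M k l m := by
  set C : List (Fin 8 × Fin 8) :=
    [(va k, vb k), (7, vb k), (va k, vb (k + 1)), (7, vb (k + 1))] with hC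
  have hcl : Closed C := by
    intro f
    simp only [hC, List.map_cons, List.map_nil, List.sum_cons, List.sum_nil]
    linear_combination two_add (f (va k)) + two_add (f (vb k)) + two_add (f 7) +
      two_add (f (vb (k + 1)))
  have hch : ∀ k l : Fin 3, k ≠ l →
      chk [(va k, vb k), (7, vb k), (va k, vb (k + 1)), (7, vb (k + 1))] 0 (va l) = true := by decide +kernel
  have e1 := S_chk (M := M) hA hB hcl (hch k l hkl)
  have e2 := S_chk (M := M) hA hB hcl (hch k m hkm)
  have e3 : ∀ ζ, S M (cyc4 0 7 (va k) (vb k)) true ζ + S M (cyc4 0 7 (va k) (vb (k + 1))) true ζ =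
      S M C true ζ := by
    intro ζ
    simp only [S, hC, cyc4, List.map_cons, List.map_nil, List.sum_cons, List.sum_nil]
    linear_combination two_add (cov (M.A 0 7) true ζ) + two_add (cov (M.A 0 (va k)) true ζ)
  unfold sg sg'
  linear_combination e3 (M.x (va l)) + e3 (M.x (va m)) - e1 - e2 +
    two_add (S M C true (M.x 0)) -
    two_add (S M (cyc4 0 7 (va k) (vb (k + 1))) true (M.x (va l))) -
    two_add (S M (cyc4 0 7 (va k) (vb (k + 1))) true (M.x (va m)))

theorem step_two (k l m : Fin 3) (hkl : k ≠ l) (hkm : k ≠ m) :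
    sg' M k l m = sg M (k + 1) (l + 1) (m + 1) := by
  set C : List (Fin 8 × Fin 8) :=
    [(0, va (k + 1)), (va (k + 1), vb (k + 1)), (0, va k), (va k, vb (k + 1))] with hC
  have hcl : Closed C := by
    intro f
    simp only [hC, List.map_cons, List.map_nil, List.sum_cons, List.sum_nil]
    linear_combination two_add (f (va k)) + two_add (f 0) + two_add (f (va (k + 1))) +
      two_add (f (vb (k + 1)))
  have hch : ∀ k l : Fin 3, k ≠ l →
      chk [(0, va (k + 1)), (va (k + 1), vb (k + 1)), (0, va k), (va k, vb (k + 1))] 7 (vb (l + 1)) = true := by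
    decide +kernel
  have hch1 : ∀ k l : Fin 3, k ≠ l → chk (cyc4 0 7 (va k) (vb (k + 1))) (va l) (vb (l + 1)) = true := by decide +kernel
  have hch2 : ∀ k l : Fin 3, k ≠ l → chk (cyc4 0 7 (va k) (vb k)) (va l) (vb l) = true := by decide +kernel
  have hkl' : k + 1 ≠ l + 1 := fun h => hkl (add_right_cancel h)
  have hkm' : k + 1 ≠ m + 1 := fun h => hkm (add_right_cancel h)
  have e1 := S_chk (M := M) hA hB hcl (hch k l hkl)
  have e2 := S_chk (M := M) hA hB hcl (hch k m hkm)
  have e3 := S_chk (M := M) hA hB (cyc4_closed 0 7 (va k) (vb (k + 1))) (hch1 k l hkl)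
  have e4 := S_chk (M := M) hA hB (cyc4_closed 0 7 (va k) (vb (k + 1))) (hch1 k m hkm)
  have e5 := S_chk (M := M) hA hB (cyc4_closed 0 7 (va (k + 1)) (vb (k + 1))) (hch2 _ _ hkl')
  have e6 := S_chk (M := M) hA hB (cyc4_closed 0 7 (va (k + 1)) (vb (k + 1))) (hch2 _ _ hkm')
  have e7 : ∀ ζ, S M (cyc4 0 7 (va k) (vb (k + 1))) true ζ +
      S M (cyc4 0 7 (va (k + 1)) (vb (k + 1))) true ζ = S M C true ζ := by
    intro ζ
    simp only [S, hC, cyc4, List.map_cons, List.map_nil, List.sum_cons, List.sum_nil]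
    linear_combination two_add (cov (M.A 0 7) true ζ) + two_add (cov (M.A 7 (vb (k + 1))) true ζ)
  unfold sg sg'
  rw [e3, e4, e5, e6]
  linear_combination e7 (M.x (vb (l + 1))) + e7 (M.x (vb (m + 1))) - e1 - e2 +
    two_add (S M C true (M.x 7)) -
    two_add (S M (cyc4 0 7 (va (k + 1)) (vb (k + 1))) true (M.x (vb (l + 1)))) -
    two_add (S M (cyc4 0 7 (va (k + 1)) (vb (k + 1))) true (M.x (vb (m + 1))))

/-! ### The local formula -/

omit hA hB in
/-- the neighbours of the vertex `0` -/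
def nb : Fin 4 → Fin 8 := ![1, 2, 3, 7]

omit hA hB in
/-- the first points of the paths at the vertex `0` -/
noncomputable def vv (i : Fin 4) : ℝ := (M.A 0 (nb i)).z 1

omit hA hB in
/-- the first sides of the paths at the vertex `0` -/
noncomputable def tt (i : Fin 4) : Bool := (M.A 0 (nb i)).side 0

omit hA hB in
theorem fst_bz (i j : Fin 4) : fst M 0 (nb i) (nb j) =
    bz ((tt M i == tt M j) && ((decide (M.x 0 < vv M j) && decide (vv M j < vv M i)) ||
      (decide (vv M i < vv M j) && decide (vv M j < M.x 0)))) := by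
  unfold fst
  apply ind_bz
  simp only [Btw, tt, vv, Bool.and_eq_true, Bool.or_eq_true, beq_iff_eq, decide_eq_true_iff]

omit hA hB in
theorem vv_ne (i : Fin 4) : vv M i ≠ M.x 0 := by
  have had : ∀ i : Fin 4, adA 0 (nb i) = true := by decide +kernel
  have h : (GA ⊔ GB).Adj 0 (nb i) := Or.inl (adA_iff.1 (had i))
  intro heq
  unfold vv at heq
  rw [← M.z_zero 0 (nb i) h] at heq
  have := M.z_inj 0 (nb i) h 1 (by omega) 0 (by omega) heq
  omega

omit hB in
theorem vv_injective : Function.Injective (vv M) := by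
  have had : ∀ i : Fin 4, adA 0 (nb i) = true := by decide +kernel
  have hnb : ∀ i j : Fin 4, i ≠ j → nb i ≠ nb j := by decide
  have h0 : ∀ i : Fin 4, (0 : Fin 8) ≠ nb i := by decide
  intro i j hij
  by_contra hne
  have h1 : GA.Adj 0 (nb i) := adA_iff.1 (had i)
  have h2 : GA.Adj 0 (nb j) := adA_iff.1 (had j)
  have hF : F s(0, nb i) s(0, nb j) := by
    refine hA _ h1 _ h2 ?_
    intro h
    rw [Sym2.eq_iff] at h
    rcases h with ⟨-, h3⟩ | ⟨h3, -⟩
    · exact hnb i j hne h3
    · exact h0 j h3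
  exact z_ne_tail M (Or.inl h1) (Or.inl h2) hF (h0 j) (hnb i j hne) 1 (by omega) 1 le_rfl (by omega) hij

omit hB in
theorem sg_eq (k l m : Fin 3) (hkl : k ≠ l) (hkm : k ≠ m) :
    sg M k l m = bz (sig (M.x 0) (vv M) (tt M) k.castSucc l.castSucc m.castSucc) := by
  have had : ∀ i : Fin 4, adA 0 (nb i) = true := by decide +kernel
  have hn : ∀ k : Fin 3, va k = nb k.castSucc := by decide
  have h7 : (7 : Fin 8) = nb 3 := by decide
  have hq : ∀ k : Fin 3, adA (va k) (vb k) = true := by decide +kernel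
  have hq' : ∀ k : Fin 3, adA 7 (vb k) = true := by decide +kernel
  have hv7 : ∀ k : Fin 3, va k ≠ 7 := by decide
  have hv0 : ∀ k : Fin 3, va k ≠ 0 := by decide
  have hb0 : ∀ k : Fin 3, vb k ≠ 0 := by decide
  have hvv : ∀ k l : Fin 3, k ≠ l → va k ≠ va l := by decide
  have hvb : ∀ k l : Fin 3, va k ≠ vb l := by decide
  have a7 : GA.Adj 0 7 := by rw [h7]; exact adA_iff.1 (had 3)
  have aa : ∀ k : Fin 3, GA.Adj 0 (va k) := fun k => by rw [hn k]; exact adA_iff.1 (had _)
  have aq : ∀ k : Fin 3, GA.Adj (va k) (vb k) := fun k => adA_iff.1 (hq k)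
  have aq' : ∀ k : Fin 3, GA.Adj 7 (vb k) := fun k => adA_iff.1 (hq' k)
  have loc : ∀ l : Fin 3, k ≠ l → S M (cyc4 0 7 (va k) (vb k)) true (M.x (va l)) =
      S M (cyc4 0 7 (va k) (vb k)) (tt M l.castSucc) (M.x 0) +
        (fst M 0 (nb 3) (nb l.castSucc) + fst M 0 (nb k.castSucc) (nb l.castSucc)) := by
    intro l hkl
    have F1 : F s(0, 7) s(0, va l) := by
      refine hA _ a7 _ (aa l) ?_
      intro h
      rw [Sym2.eq_iff] at h
      rcases h with ⟨-, h⟩ | ⟨h, -⟩
      · exact hv7 l h.symm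
      · exact hv0 l h.symm
    have F2 : F s(0, va k) s(0, va l) := by
      refine hA _ (aa k) _ (aa l) ?_
      intro h
      rw [Sym2.eq_iff] at h
      rcases h with ⟨-, h⟩ | ⟨h, -⟩
      · exact hvv k l hkl h
      · exact hv0 l h.symm
    have F3 : F s(va k, vb k) s(0, va l) := by
      refine hA _ (aq k) _ (aa l) ?_
      intro h
      rw [Sym2.eq_iff] at h
      rcases h with ⟨h, -⟩ | ⟨h, -⟩
      · exact hv0 k h
      · exact hvv k l hkl h
    have F4 : F s(7, vb k) s(0, va l) := by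
      refine hA _ (aq' k) _ (aa l) ?_
      intro h
      rw [Sym2.eq_iff] at h
      rcases h with ⟨h, -⟩ | ⟨h, -⟩
      · exact absurd h (by decide)
      · exact hv7 l h.symm
    have := local_eq (M := M) (c := 0) (d := 7) (p := va k) (q := vb k) (l := va l)
      (Or.inl a7) (Or.inl (aa k)) (Or.inl (aq k)) (Or.inl (aq' k)) (Or.inl (aa l)) F1 F2 F3 F4
      (hv7 l) (hvv k l hkl).symm (hvb l k) (hb0 k).symm
    rw [this, ← h7, ← hn, ← hn]
    unfold tt
    rw [← hn]
  have hst := at_start (M := M) (c := 0) (d := 7) (p := va k) (q := vb k)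
      (Or.inl a7) (Or.inl (aa k)) (Or.inl (aq k)) (Or.inl (aq' k)) (hb0 k).symm
  have e7 : ind ((M.A 0 7).z 1 < M.x 0) = bz (decide (vv M 3 < M.x 0)) := by
    apply ind_bz
    rw [decide_eq_true_iff]
    rfl
  have ek : ind ((M.A 0 (va k)).z 1 < M.x 0) = bz (decide (vv M k.castSucc < M.x 0)) := by
    apply ind_bz
    rw [decide_eq_true_iff]
    unfold vv
    rw [← hn]
  rw [e7, ek] at hst
  unfold sg sig
  rw [loc l hkl, loc m hkm, fst_bz, fst_bz, fst_bz, fst_bz]
  simp only [bz_xor]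
  have efirst : S M (cyc4 0 7 (va k) (vb k)) (tt M l.castSucc) (M.x 0) +
      S M (cyc4 0 7 (va k) (vb k)) (tt M m.castSucc) (M.x 0) =
      bz ((tt M l.castSucc ^^ tt M m.castSucc) &&
        (decide (vv M 3 < M.x 0) ^^ decide (vv M k.castSucc < M.x 0))) := by
    cases h1 : tt M l.castSucc <;> cases h2 : tt M m.castSucc
    · simp only [Bool.xor_self, Bool.false_and]
      rw [two_add]; rfl
    · simp only [Bool.false_xor, Bool.true_and]
      rw [add_comm, hst, bz_xor]
    · simp only [Bool.xor_false, Bool.true_and]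
      rw [hst, bz_xor]
    · simp only [Bool.xor_self, Bool.false_and]
      rw [two_add]; rfl
  linear_combination efirst

end

/-- **There is no axis model in which the edges of each of the two graphs are disjoint.** -/
theorem no_model {F : Sym2 (Fin 8) → Sym2 (Fin 8) → Prop} (M : SModel (GA ⊔ GB) F)
    (hA : ∀ e ∈ GA.edgeSet, ∀ f ∈ GA.edgeSet, e ≠ f → F e f)
    (hB : ∀ e ∈ GB.edgeSet, ∀ f ∈ GB.edgeSet, e ≠ f → F e f) : False := by
  have e1 := step_one M hA hB 0 1 2 (by decide) (by decide)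
  have e2 := step_two M hA hB 0 1 2 (by decide) (by decide)
  have e3 := step_one M hA hB 1 2 0 (by decide) (by decide)
  have e4 := step_two M hA hB 1 2 0 (by decide) (by decide)
  have e5 : sg M 1 0 2 = sg M 1 2 0 := add_comm _ _
  have f1 : sg M 0 1 2 = sg M 1 0 2 := by rw [e1, e2, e5]; rfl
  have f2 : sg M 1 0 2 = sg M 2 0 1 := by rw [e5, e3, e4]; rfl
  rw [sg_eq M hA 0 1 2 (by decide) (by decide), sg_eq M hA 1 0 2 (by decide) (by decide)] at f1
  rw [sg_eq M hA 1 0 2 (by decide) (by decide), sg_eq M hA 2 0 1 (by decide) (by decide)] at f2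
  exact sig_real (M.x 0) (vv M) (vv_ne M) (vv_injective M hA) (tt M)
    ⟨bz_injective f1, bz_injective f2⟩

/-! ### From simultaneous embeddings to the axis model -/

/-- the interior of an arc is the arc without its ends -/
theorem interior_eq {V : Type} {G : SimpleGraph V} (D : PlaneDrawing G) {e : Sym2 V}
    (he : e ∈ G.edgeSet) :
    D.arc e '' Set.Ioo 0 1 = D.edge e \ {z | z ∈ e.map D.pt} := by
  have hends := D.arc_ends e he
  ext z
  constructor
  · rintro ⟨t, ht, rfl⟩
    refine ⟨⟨t, Set.Ioo_subset_Icc_self ht, rfl⟩, ?_⟩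
    intro hz
    rw [Set.mem_ofPred_eq, Sym2.mem_map] at hz
    obtain ⟨v, -, hv⟩ := hz
    exact D.arc_avoid e he t ht v hv.symm
  · rintro ⟨⟨t, ht, rfl⟩, hz⟩
    rw [Set.mem_ofPred_eq, ← hends, Sym2.mem_iff, not_or] at hz
    refine ⟨t, ⟨lt_of_le_of_ne ht.1 ?_, lt_of_le_of_ne ht.2 ?_⟩, rfl⟩
    · rintro rfl; exact hz.1 rfl
    · rintro rfl; exact hz.2 rfl

theorem not_admitsSEFE : ¬ AdmitsSEFE GA GB := by
  classical
  rintro ⟨Γ₁, Γ₂, hp1, hp2, hpt, hcommon⟩
  have hpt' : Γ₂.pt = Γ₁.pt := funext fun v => (hpt v).symm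
  have mem_sup : ∀ {e : Sym2 (Fin 8)}, e ∈ (GA ⊔ GB).edgeSet → e ∉ GA.edgeSet → e ∈ GB.edgeSet := by
    intro e he hne
    rw [SimpleGraph.edgeSet_sup] at he
    exact he.resolve_left hne
  let D : TopDrawing (GA ⊔ GB) :=
    { pt := Γ₁.pt
      pt_injective := Γ₁.pt_injective
      arc := fun e => if e ∈ GA.edgeSet then Γ₁.arc e else Γ₂.arc e
      arc_cont := by
        intro e he
        by_cases h : e ∈ GA.edgeSet
        · simp only [h, if_true]; exact Γ₁.arc_cont e h
        · simp only [h, if_false]; exact Γ₂.arc_cont e (mem_sup he h)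
      arc_inj := by
        intro e he
        by_cases h : e ∈ GA.edgeSet
        · simp only [h, if_true]; exact Γ₁.arc_inj e h
        · simp only [h, if_false]; exact Γ₂.arc_inj e (mem_sup he h)
      arc_ends := by
        intro e he
        by_cases h : e ∈ GA.edgeSet
        · simp only [h, if_true]; exact Γ₁.arc_ends e h
        · simp only [h, if_false]
          rw [Γ₂.arc_ends e (mem_sup he h), hpt']
      arc_avoid := by
        intro e he
        by_cases h : e ∈ GA.edgeSet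
        · simp only [h, if_true]; exact Γ₁.arc_avoid e h
        · simp only [h, if_false]
          intro t ht v
          rw [← hpt']
          exact Γ₂.arc_avoid e (mem_sup he h) t ht v }
  have dA : ∀ e ∈ GA.edgeSet, D.arc e '' Set.Ioo 0 1 = Γ₁.arc e '' Set.Ioo 0 1 := by
    intro e he
    show (if e ∈ GA.edgeSet then Γ₁.arc e else Γ₂.arc e) '' Set.Ioo 0 1 = _
    rw [if_pos he]
  have dB : ∀ e ∈ GB.edgeSet, D.arc e '' Set.Ioo 0 1 = Γ₂.arc e '' Set.Ioo 0 1 := by
    intro e he
    by_cases h : e ∈ GA.edgeSet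
    · rw [dA e h, interior_eq Γ₁ h, interior_eq Γ₂ he, hcommon e h he, hpt']
    · show (if e ∈ GA.edgeSet then Γ₁.arc e else Γ₂.arc e) '' Set.Ioo 0 1 = _
      rw [if_neg h]
  obtain ⟨D', -, hD'⟩ := exists_poly_drawing D
  obtain ⟨M⟩ := exists_sModel D'
  refine no_model M ?_ ?_
  · intro e he f hf hef
    refine hD' e (SimpleGraph.edgeSet_mono le_sup_left he) f (SimpleGraph.edgeSet_mono le_sup_left hf) ?_
    unfold TFree
    rw [dA e he, dA f hf, Set.disjoint_iff_inter_eq_empty]
    exact hp1 e he f hf hef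
  · intro e he f hf hef
    refine hD' e (SimpleGraph.edgeSet_mono le_sup_right he) f (SimpleGraph.edgeSet_mono le_sup_right hf) ?_
    unfold TFree
    rw [dB e he, dB f hf, Set.disjoint_iff_inter_eq_empty]
    exact hp2 e he f hf hef

end Pool.Agent.Lib.MP_3c943f_co
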