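import Pool.Agent.Lib.MP_3c943f_co.Axis

/-!
# Parities in the axis model
-/

namespace Pool.Agent.Lib.MP_3c943f_co

open Pool.Agent.Lib.MP_266831_co (AxisPath)

/-- `ζ` lies strictly between `u` and `v` -/
def Btw (u ζ v : ℝ) : Prop := (u < ζ ∧ ζ < v) ∨ (v < ζ ∧ ζ < u)

open Classical in
/-- indicator with values in `ZMod 2` -/
noncomputable def ind (P : Prop) : ZMod 2 := if P then 1 else 0

theorem ind_true {P : Prop} (h : P) : ind P = 1 := by unfold ind; rw [if_pos h]

theorem ind_false {P : Prop} (h : ¬ P) : ind P = 0 := by unfold ind; rw [if_neg h]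

theorem ind_congr {P Q : Prop} (h : P ↔ Q) : ind P = ind Q := by
  by_cases hP : P
  · rw [ind_true hP, ind_true (h.1 hP)]
  · rw [ind_false hP, ind_false (fun hQ => hP (h.2 hQ))]

/-- the number (mod 2) of pieces of `A` on the side `τ` which cover `ζ` -/
noncomputable def cov (A : AxisPath) (τ : Bool) (ζ : ℝ) : ZMod 2 :=
  ∑ k ∈ Finset.range (A.n + 1), ind (A.side k = τ ∧ Btw (A.z k) ζ (A.z (k + 1)))

theorem two_add (a : ZMod 2) : a + a = 0 := CharTwo.add_self_eq_zero a

theorem ind_btw {u ζ v : ℝ} (hu : u ≠ ζ) (hv : v ≠ ζ) : ind (Btw u ζ v) = ind (u < ζ) + ind (v < ζ) := by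
  rcases lt_or_gt_of_ne hu with h1 | h1 <;> rcases lt_or_gt_of_ne hv with h2 | h2
  · rw [ind_false (by unfold Btw; intro h; rcases h with h | h <;> linarith [h.1, h.2]),
      ind_true h1, ind_true h2]; rfl
  · rw [ind_true (by unfold Btw; exact Or.inl ⟨h1, h2⟩), ind_true h1, ind_false (not_lt.2 h2.le),
      add_zero]
  · rw [ind_true (by unfold Btw; exact Or.inr ⟨h2, h1⟩), ind_true h2, ind_false (not_lt.2 h1.le),
      zero_add]
  · rw [ind_false (by unfold Btw; intro h; rcases h with h | h <;> linarith [h.1, h.2]),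
      ind_false (not_lt.2 h1.le), ind_false (not_lt.2 h2.le), add_zero]

theorem telescope (f : ℕ → ZMod 2) (m : ℕ) :
    ∑ k ∈ Finset.range m, (f k + f (k + 1)) = f 0 + f m := by
  induction m with
  | zero => simp [two_add]
  | succ m ih =>
    rw [Finset.sum_range_succ, ih]
    linear_combination two_add (f m)

theorem cov_both (A : AxisPath) (ζ : ℝ) :
    cov A true ζ + cov A false ζ =
      ∑ k ∈ Finset.range (A.n + 1), ind (Btw (A.z k) ζ (A.z (k + 1))) := by
  unfold cov
  rw [← Finset.sum_add_distrib]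
  refine Finset.sum_congr rfl fun k _ => ?_
  cases hs : A.side k
  · rw [ind_false (by simp), zero_add]
    exact ind_congr (by simp)
  · rw [ind_false (P := true = false ∧ _) (by simp), add_zero]
    exact ind_congr (by simp)

/-- all pieces, at a point which is not on the path -/
theorem cov_sum (A : AxisPath) {ζ : ℝ} (h : ∀ i ≤ A.n + 1, A.z i ≠ ζ) :
    cov A true ζ + cov A false ζ = ind (A.z 0 < ζ) + ind (A.z (A.n + 1) < ζ) := by
  rw [cov_both, ← telescope (fun k => ind (A.z k < ζ))]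
  refine Finset.sum_congr rfl fun k hk => ?_
  rw [Finset.mem_range] at hk
  exact ind_btw (h k (by omega)) (h (k + 1) (by omega))

/-- all pieces, at the start of the path -/
theorem cov_sum_start (A : AxisPath) {ζ : ℝ} (h0 : A.z 0 = ζ) (h : ∀ i, 1 ≤ i → i ≤ A.n + 1 → A.z i ≠ ζ) :
    cov A true ζ + cov A false ζ = ind (A.z 1 < ζ) + ind (A.z (A.n + 1) < ζ) := by
  have e1 : ∑ k ∈ Finset.range (A.n + 1), ind (Btw (A.z k) ζ (A.z (k + 1))) =
      ∑ k ∈ Finset.range A.n, (ind (A.z (k + 1) < ζ) + ind (A.z (k + 1 + 1) < ζ)) := by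
    rw [Finset.sum_range_succ', ind_false (P := Btw (A.z 0) ζ (A.z (0 + 1)))
      (by unfold Btw; rw [h0]; intro h; rcases h with h | h <;> linarith [h.1, h.2]), add_zero]
    refine Finset.sum_congr rfl fun k hk => ?_
    rw [Finset.mem_range] at hk
    exact ind_btw (h (k + 1) (by omega) (by omega)) (h (k + 1 + 1) (by omega) (by omega))
  rw [cov_both, e1, telescope (fun k => ind (A.z (k + 1) < ζ))]

theorem btw_iff {p q u v : ℝ} (h : ¬ Pool.Agent.Lib.MP_266831_co.Inter p q u v) (h1 : p ≠ u) (h2 : p ≠ v)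
    (h3 : q ≠ u) (h4 : q ≠ v) : Btw p u q ↔ Btw p v q := by
  unfold Pool.Agent.Lib.MP_266831_co.Inter at h
  unfold Btw
  grind

theorem not_inter_of_X {A B : AxisPath} (h : A.X B = 0) {j k : ℕ} (hj : j ≤ A.n) (hk : k ≤ B.n)
    (hs : A.side j = B.side k) :
    ¬ Pool.Agent.Lib.MP_266831_co.Inter (A.z j) (A.z (j + 1)) (B.z k) (B.z (k + 1)) := by
  intro hI
  unfold AxisPath.X at h
  rw [Finset.card_eq_zero, Finset.eq_empty_iff_forall_notMem] at h
  apply h (j, k)
  unfold AxisPath.pairs
  simp only [Finset.mem_filter, Finset.mem_product, Finset.mem_range]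
  exact ⟨⟨by omega, by omega⟩, hs, hI⟩

/-- moving along a piece of `B` -/
theorem cov_piece {A B : AxisPath} (h : A.X B = 0) {k : ℕ} (hk : k ≤ B.n)
    (h1 : ∀ i ≤ A.n + 1, A.z i ≠ B.z k) (h2 : ∀ i ≤ A.n + 1, A.z i ≠ B.z (k + 1)) :
    cov A (B.side k) (B.z k) = cov A (B.side k) (B.z (k + 1)) := by
  unfold cov
  refine Finset.sum_congr rfl fun j hj => ?_
  rw [Finset.mem_range] at hj
  apply ind_congr
  constructor
  · rintro ⟨hs, hb⟩
    exact ⟨hs, (btw_iff (not_inter_of_X h (by omega) hk hs) (h1 j (by omega)) (h2 j (by omega))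
      (h1 (j + 1) (by omega)) (h2 (j + 1) (by omega))).1 hb⟩
  · rintro ⟨hs, hb⟩
    exact ⟨hs, (btw_iff (not_inter_of_X h (by omega) hk hs) (h1 j (by omega)) (h2 j (by omega))
      (h1 (j + 1) (by omega)) (h2 (j + 1) (by omega))).2 hb⟩

/-- moving along the first piece of `B`, when `A` starts at the same point -/
theorem cov_first {A B : AxisPath} (h : A.X B = 0) (h0 : A.z 0 = B.z 0)
    (h1 : ∀ i, 1 ≤ i → i ≤ A.n + 1 → A.z i ≠ B.z 0) (h2 : ∀ i ≤ A.n + 1, A.z i ≠ B.z 1) :
    cov A (B.side 0) (B.z 1) =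
      cov A (B.side 0) (B.z 0) + ind (A.side 0 = B.side 0 ∧ Btw (A.z 0) (B.z 1) (A.z 1)) := by
  unfold cov
  rw [Finset.sum_range_succ', Finset.sum_range_succ' (f := fun k =>
    ind (A.side k = B.side 0 ∧ Btw (A.z k) (B.z 0) (A.z (k + 1))))]
  rw [ind_false (P := A.side 0 = B.side 0 ∧ Btw (A.z 0) (B.z 0) (A.z (0 + 1)))
      (by rintro ⟨-, h3⟩; unfold Btw at h3; rw [h0] at h3
          rcases h3 with h3 | h3 <;> linarith [h3.1, h3.2]), add_zero]
  congr 1
  refine Finset.sum_congr rfl fun j hj => ?_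
  rw [Finset.mem_range] at hj
  apply ind_congr
  constructor
  · rintro ⟨hs, hb⟩
    exact ⟨hs, (btw_iff (not_inter_of_X h (j := j + 1) (k := 0) (by omega) (by omega) hs)
      (h1 (j + 1) (by omega) (by omega)) (h2 (j + 1) (by omega))
      (h1 (j + 1 + 1) (by omega) (by omega)) (h2 (j + 1 + 1) (by omega))).2 hb⟩
  · rintro ⟨hs, hb⟩
    exact ⟨hs, (btw_iff (not_inter_of_X h (j := j + 1) (k := 0) (by omega) (by omega) hs)
      (h1 (j + 1) (by omega) (by omega)) (h2 (j + 1) (by omega))
      (h1 (j + 1 + 1) (by omega) (by omega)) (h2 (j + 1 + 1) (by omega))).1 hb⟩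

/-! ### Closed chains -/

section chains

variable {V : Type} {G : SimpleGraph V} {F : Sym2 V → Sym2 V → Prop} (M : SModel G F)

/-- the number (mod 2) of pieces of the edges of `C` on the side `τ` over `ζ` -/
noncomputable def S (C : List (V × V)) (τ : Bool) (ζ : ℝ) : ZMod 2 :=
  (C.map (fun p => cov (M.A p.1 p.2) τ ζ)).sum

/-- the list of edges `C` is a closed chain: it has every vertex an even number of times as an end -/
def Closed (C : List (V × V)) : Prop :=
  ∀ f : V → ZMod 2, (C.map (fun p => f p.1 + f p.2)).sum = 0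

theorem sum_map_add {α : Type} (C : List α) (f g : α → ZMod 2) :
    (C.map f).sum + (C.map g).sum = (C.map (fun p => f p + g p)).sum := by
  induction C with
  | nil => simp
  | cons a C ih => simp only [List.map_cons, List.sum_cons, ← ih]; ring

theorem map_sum_congr {α : Type} (C : List α) (f g : α → ZMod 2) (h : ∀ p ∈ C, f p = g p) :
    (C.map f).sum = (C.map g).sum := by
  congr 1
  exact List.map_congr_left h

/-- the points of the path of an edge are no points of the path of another one -/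
theorem z_ne_all {a b c d : V} (hab : G.Adj a b) (hcd : G.Adj c d) (hF : F s(a, b) s(c, d))
    (h1 : a ≠ c) (h2 : b ≠ c) (h3 : a ≠ d) (h4 : b ≠ d) (i : ℕ) (hi : i ≤ (M.A a b).n + 1)
    (j : ℕ) (hj : j ≤ (M.A c d).n + 1) : (M.A a b).z i ≠ (M.A c d).z j := by
  rcases Nat.eq_zero_or_pos i with rfl | hi0
  · rw [M.z_zero a b hab]
    rcases Nat.eq_zero_or_pos j with rfl | hj0
    · rw [M.z_zero c d hcd]; exact fun h => h1 (M.x_injective h)
    · rcases Nat.lt_or_ge (M.A c d).n j with hj1 | hj1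
      · have : j = (M.A c d).n + 1 := by omega
        rw [this, M.z_last c d hcd]; exact fun h => h3 (M.x_injective h)
      · exact (M.z_ne c d hcd j hj0 hj1 a).symm
  · rcases Nat.lt_or_ge (M.A a b).n i with hi1 | hi1
    · have : i = (M.A a b).n + 1 := by omega
      rw [this, M.z_last a b hab]
      rcases Nat.eq_zero_or_pos j with rfl | hj0
      · rw [M.z_zero c d hcd]; exact fun h => h2 (M.x_injective h)
      · rcases Nat.lt_or_ge (M.A c d).n j with hj1 | hj1
        · have : j = (M.A c d).n + 1 := by omega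
          rw [this, M.z_last c d hcd]; exact fun h => h4 (M.x_injective h)
        · exact (M.z_ne c d hcd j hj0 hj1 b).symm
    · rcases Nat.eq_zero_or_pos j with rfl | hj0
      · rw [M.z_zero c d hcd]; exact M.z_ne a b hab i hi0 hi1 c
      · rcases Nat.lt_or_ge (M.A c d).n j with hj1 | hj1
        · have : j = (M.A c d).n + 1 := by omega
          rw [this, M.z_last c d hcd]; exact M.z_ne a b hab i hi0 hi1 d
        · exact M.z_ne_z a b c d hab hcd hF i hi0 hi1 j hj0 hj1

/-- the same, when only the end `d` of the second edge is no end of the first one -/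
theorem z_ne_tail {a b c d : V} (hab : G.Adj a b) (hcd : G.Adj c d) (hF : F s(a, b) s(c, d))
    (h3 : a ≠ d) (h4 : b ≠ d) (i : ℕ) (hi : i ≤ (M.A a b).n + 1)
    (j : ℕ) (hj1 : 1 ≤ j) (hj : j ≤ (M.A c d).n + 1) : (M.A a b).z i ≠ (M.A c d).z j := by
  rcases Nat.lt_or_ge (M.A c d).n j with hj2 | hj2
  · have : j = (M.A c d).n + 1 := by omega
    rw [this, M.z_last c d hcd]
    rcases Nat.eq_zero_or_pos i with rfl | hi0
    · rw [M.z_zero a b hab]; exact fun h => h3 (M.x_injective h)
    · rcases Nat.lt_or_ge (M.A a b).n i with hi1 | hi1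
      · have : i = (M.A a b).n + 1 := by omega
        rw [this, M.z_last a b hab]; exact fun h => h4 (M.x_injective h)
      · exact M.z_ne a b hab i hi0 hi1 d
  · rcases Nat.eq_zero_or_pos i with rfl | hi0
    · rw [M.z_zero a b hab]; exact (M.z_ne c d hcd j hj1 hj2 a).symm
    · rcases Nat.lt_or_ge (M.A a b).n i with hi1 | hi1
      · have : i = (M.A a b).n + 1 := by omega
        rw [this, M.z_last a b hab]; exact (M.z_ne c d hcd j hj1 hj2 b).symm
      · exact M.z_ne_z a b c d hab hcd hF i hi0 hi1 j hj1 hj2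

/-- for closed chains the two sides agree -/
theorem S_side {C : List (V × V)} (hC : ∀ p ∈ C, G.Adj p.1 p.2) (hcl : Closed C) {ζ : ℝ}
    (h : ∀ p ∈ C, ∀ i ≤ (M.A p.1 p.2).n + 1, (M.A p.1 p.2).z i ≠ ζ) (τ τ' : Bool) :
    S M C τ ζ = S M C τ' ζ := by
  have e1 : S M C true ζ + S M C false ζ = 0 := by
    unfold S
    rw [sum_map_add, ← hcl (fun v => ind (M.x v < ζ))]
    apply map_sum_congr
    intro p hp
    rw [cov_sum _ (h p hp), M.z_zero _ _ (hC p hp), M.z_last _ _ (hC p hp)]
  have e2 : S M C true ζ = S M C false ζ := by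
    linear_combination e1 - two_add (S M C false ζ)
  cases τ <;> cases τ' <;> first | rfl | exact e2 | exact e2.symm

/-- moving along the edge `u v` from its `i₀`-th point to its end -/
theorem S_walk {C : List (V × V)} (hC : ∀ p ∈ C, G.Adj p.1 p.2) (hcl : Closed C) {u v : V}
    (huv : G.Adj u v) (hF : ∀ p ∈ C, F s(p.1, p.2) s(u, v)) (i₀ : ℕ)
    (h : ∀ p ∈ C, ∀ i ≤ (M.A p.1 p.2).n + 1, ∀ j, i₀ ≤ j → j ≤ (M.A u v).n + 1 →
      (M.A p.1 p.2).z i ≠ (M.A u v).z j)
    (hi : i₀ ≤ (M.A u v).n + 1) (τ τ' : Bool) :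
    S M C τ ((M.A u v).z i₀) = S M C τ' (M.x v) := by
  have key : ∀ m, ∀ j, i₀ ≤ j → j + m = (M.A u v).n + 1 →
      S M C τ ((M.A u v).z j) = S M C τ' ((M.A u v).z ((M.A u v).n + 1)) := by
    intro m
    induction m with
    | zero =>
      intro j hj hjm
      rw [add_zero] at hjm
      subst hjm
      exact S_side M hC hcl (fun p hp i hi => h p hp i hi _ hj le_rfl) τ τ'
    | succ m ih =>
      intro j hj hjm
      have h1 := ih (j + 1) (by omega) (by omega)
      rw [← h1]
      have h2 : S M C ((M.A u v).side j) ((M.A u v).z j) =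
          S M C ((M.A u v).side j) ((M.A u v).z (j + 1)) := by
        unfold S
        apply map_sum_congr
        intro p hp
        exact cov_piece (M.X_zero _ _ _ _ (hC p hp) huv (hF p hp)) (by omega)
          (fun i hi => h p hp i hi j hj (by omega)) (fun i hi => h p hp i hi (j + 1) (by omega) (by omega))
      rw [S_side M hC hcl (fun p hp i hi => h p hp i hi j hj (by omega)) τ ((M.A u v).side j), h2]
      exact S_side M hC hcl (fun p hp i hi => h p hp i hi (j + 1) (by omega) (by omega)) _ _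
  have := key ((M.A u v).n + 1 - i₀) i₀ le_rfl (by omega)
  rw [this, M.z_last u v huv]

/-- a closed chain has the same parity at the ends of an edge which does not meet it -/
theorem S_edge {C : List (V × V)} (hC : ∀ p ∈ C, G.Adj p.1 p.2) (hcl : Closed C) {u v : V}
    (huv : G.Adj u v) (hF : ∀ p ∈ C, F s(p.1, p.2) s(u, v))
    (hu : ∀ p ∈ C, p.1 ≠ u ∧ p.2 ≠ u) (hv : ∀ p ∈ C, p.1 ≠ v ∧ p.2 ≠ v) :
    S M C true (M.x u) = S M C true (M.x v) := by
  have := S_walk M hC hcl huv hF 0 (fun p hp i hi j _ hj =>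
    z_ne_all M (hC p hp) huv (hF p hp) (hu p hp).1 (hu p hp).2 (hv p hp).1 (hv p hp).2 i hi j hj)
    (Nat.zero_le _) true true
  rwa [M.z_zero u v huv] at this

end chains

end Pool.Agent.Lib.MP_3c943f_co
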