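import Pool.Agent.Lib.MP_3c943f_co.Graphs

/-!
# The common graph is a tree of maximum degree four
-/

namespace Pool.Agent.Lib.MP_3c943f_co

theorem inf_adj_iff : ∀ u v : Fin 8, (GA ⊓ GB).Adj u v ↔ s(u, v) ∈ common := by
  intro u v
  rw [SimpleGraph.inf_adj, SimpleGraph.fromEdgeSet_adj, SimpleGraph.fromEdgeSet_adj,
    Finset.mem_coe, Finset.mem_coe]
  revert u v
  decide +kernel

theorem edgeSet_inf : (GA ⊓ GB).edgeSet = (common : Set (Sym2 (Fin 8))) := by
  ext e
  induction e using Sym2.ind with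
  | _ u v => rw [SimpleGraph.mem_edgeSet, inf_adj_iff, Finset.mem_coe]

theorem inf_connected : (GA ⊓ GB).Connected := by
  have h : ∀ u v : Fin 8, s(u, v) ∈ common → (GA ⊓ GB).Reachable u v := fun u v h =>
    SimpleGraph.Adj.reachable ((inf_adj_iff u v).2 h)
  have h7 : (GA ⊓ GB).Reachable 0 7 := h 0 7 (by decide)
  have h0 : ∀ v : Fin 8, (GA ⊓ GB).Reachable 0 v := by
    intro v
    fin_cases v
    · exact SimpleGraph.Reachable.refl _
    · exact h 0 1 (by decide)
    · exact h 0 2 (by decide)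
    · exact h 0 3 (by decide)
    · exact h7.trans (h 7 4 (by decide))
    · exact h7.trans (h 7 5 (by decide))
    · exact h7.trans (h 7 6 (by decide))
    · exact h7
  have : Nonempty (Fin 8) := ⟨0⟩
  exact { preconnected := fun u v => (h0 u).symm.trans (h0 v) }

theorem inf_isTree : (GA ⊓ GB).IsTree := by
  rw [SimpleGraph.isTree_iff_connected_and_card]
  refine ⟨inf_connected, ?_⟩
  rw [edgeSet_inf, Nat.card_coe_set_eq, Set.ncard_coe_finset, Nat.card_eq_fintype_card,
    Fintype.card_fin]
  decide +kernel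

theorem inf_degree (v : Fin 8) : ((GA ⊓ GB).neighborSet v).ncard ≤ 4 := by
  have h : (GA ⊓ GB).neighborSet v = ((Finset.univ.filter fun w : Fin 8 => s(v, w) ∈ common : Finset (Fin 8)) : Set (Fin 8)) := by
    ext w
    rw [SimpleGraph.mem_neighborSet, inf_adj_iff]
    simp
  rw [h, Set.ncard_coe_finset]
  clear h
  revert v
  decide +kernel

end Pool.Agent.Lib.MP_3c943f_co
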